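import Mathlib

open Finset Real Filter

namespace Pool.Agent.PGap

theorem geom_upper {F : ℝ → ℝ} (hF : Monotone F) {β ρ B Y₀ : ℝ} (hρ : 1 < ρ) (hβ : 0 < β)
    (hB : 0 ≤ B) (hY₀ : 0 < Y₀) (h : ∀ Y, Y₀ ≤ Y → F (ρ * Y) - F Y ≤ B * Y ^ β) :
    ∀ Y, Y₀ ≤ Y → F Y ≤ F (ρ * Y₀) + B / (ρ ^ β - 1) * Y ^ β := by
  have hρβ : 0 < ρ ^ β - 1 := by
    have := Real.one_lt_rpow hρ hβ
    linarith
  have key : ∀ n : ℕ, ∀ Y, Y₀ ≤ Y → Y ≤ ρ ^ (n + 1) * Y₀ →
      F Y ≤ F (ρ * Y₀) + B / (ρ ^ β - 1) * Y ^ β := by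
    intro n
    induction n with
    | zero =>
      intro Y h1 h2
      have h3 : F Y ≤ F (ρ * Y₀) := hF (by simpa using h2)
      have : 0 ≤ B / (ρ ^ β - 1) * Y ^ β := by
        have : 0 < Y := by linarith
        positivity
      linarith
    | succ n ih =>
      intro Y h1 h2
      have hY0 : 0 < Y := by linarith
      rcases le_or_gt Y (ρ ^ (n + 1) * Y₀) with h3 | h3
      · exact ih Y h1 h3
      · have hr0 : 0 < ρ := by linarith
        have hY : ρ * (Y / ρ) = Y := by field_simp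
        have h4 : Y₀ ≤ Y / ρ := by
          rw [le_div_iff₀ hr0]
          have h5 : ρ ≤ ρ ^ (n + 1) := by
            calc ρ = ρ ^ 1 := (pow_one ρ).symm
              _ ≤ ρ ^ (n + 1) := pow_le_pow_right₀ hρ.le (by omega)
          nlinarith
        have h5 : Y / ρ ≤ ρ ^ (n + 1) * Y₀ := by
          rw [div_le_iff₀ hr0]
          calc Y ≤ ρ ^ (n + 1 + 1) * Y₀ := h2
            _ = ρ ^ (n + 1) * Y₀ * ρ := by ring
        have h6 := ih (Y / ρ) h4 h5
        have h7 := h (Y / ρ) h4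
        rw [hY] at h7
        have h8 : Y ^ β = ρ ^ β * (Y / ρ) ^ β := by
          rw [← Real.mul_rpow hr0.le (by positivity), hY]
        have h9 : B / (ρ ^ β - 1) * Y ^ β = B / (ρ ^ β - 1) * (Y / ρ) ^ β + B * (Y / ρ) ^ β := by
          rw [h8]; field_simp; ring
        linarith
  intro Y hY
  obtain ⟨n, hn⟩ := pow_unbounded_of_one_lt (Y / Y₀) hρ
  refine key n Y hY ?_
  rw [div_lt_iff₀ hY₀] at hn
  have : ρ ^ n ≤ ρ ^ (n + 1) := pow_le_pow_right₀ hρ.le (by omega)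
  nlinarith

theorem geom_lower {F : ℝ → ℝ} (hF0 : ∀ Y, 0 ≤ F Y) {β ρ B Y₀ : ℝ} (hρ : 1 < ρ) (hβ : 0 < β)
    (hB : 0 ≤ B) (hY₀ : 0 < Y₀) (h : ∀ Y, Y₀ ≤ Y → B * Y ^ β ≤ F (ρ * Y) - F Y) :
    ∀ Y, Y₀ ≤ Y → B / (ρ ^ β - 1) * (Y ^ β - (ρ * Y₀) ^ β) ≤ F Y := by
  have hρβ : 0 < ρ ^ β - 1 := by
    have := Real.one_lt_rpow hρ hβ
    linarith
  have key : ∀ n : ℕ, ∀ Y, Y₀ ≤ Y → Y ≤ ρ ^ (n + 1) * Y₀ →
      B / (ρ ^ β - 1) * (Y ^ β - (ρ * Y₀) ^ β) ≤ F Y := by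
    intro n
    induction n with
    | zero =>
      intro Y h1 h2
      have hY : 0 < Y := by linarith
      have h3 : Y ^ β ≤ (ρ * Y₀) ^ β := Real.rpow_le_rpow hY.le (by simpa using h2) hβ.le
      have : B / (ρ ^ β - 1) * (Y ^ β - (ρ * Y₀) ^ β) ≤ 0 :=
        mul_nonpos_of_nonneg_of_nonpos (by positivity) (by linarith)
      linarith [hF0 Y]
    | succ n ih =>
      intro Y h1 h2
      have hY0 : 0 < Y := by linarith
      rcases le_or_gt Y (ρ ^ (n + 1) * Y₀) with h3 | h3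
      · exact ih Y h1 h3
      · have hr0 : 0 < ρ := by linarith
        have hY : ρ * (Y / ρ) = Y := by field_simp
        have h4 : Y₀ ≤ Y / ρ := by
          rw [le_div_iff₀ hr0]
          have h5 : ρ ≤ ρ ^ (n + 1) := by
            calc ρ = ρ ^ 1 := (pow_one ρ).symm
              _ ≤ ρ ^ (n + 1) := pow_le_pow_right₀ hρ.le (by omega)
          nlinarith
        have h5 : Y / ρ ≤ ρ ^ (n + 1) * Y₀ := by
          rw [div_le_iff₀ hr0]
          calc Y ≤ ρ ^ (n + 1 + 1) * Y₀ := h2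
            _ = ρ ^ (n + 1) * Y₀ * ρ := by ring
        have h6 := ih (Y / ρ) h4 h5
        have h7 := h (Y / ρ) h4
        rw [hY] at h7
        have h8 : Y ^ β = ρ ^ β * (Y / ρ) ^ β := by
          rw [← Real.mul_rpow hr0.le (by positivity), hY]
        have h9 : B / (ρ ^ β - 1) * (Y ^ β - (ρ * Y₀) ^ β)
            = B / (ρ ^ β - 1) * ((Y / ρ) ^ β - (ρ * Y₀) ^ β) + B * (Y / ρ) ^ β := by
          rw [h8]; field_simp; ring
        linarith
  intro Y hY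
  obtain ⟨n, hn⟩ := pow_unbounded_of_one_lt (Y / Y₀) hρ
  refine key n Y hY ?_
  rw [div_lt_iff₀ hY₀] at hn
  have : ρ ^ n ≤ ρ ^ (n + 1) := pow_le_pow_right₀ hρ.le (by omega)
  nlinarith

theorem ratio_tendsto {β : ℝ} (hβ : 0 < β) :
    Tendsto (fun ρ : ℝ => (ρ - 1) / (ρ ^ β - 1)) (nhdsWithin 1 (Set.Ioi 1)) (nhds (1 / β)) := by
  have h : HasDerivAt (fun ρ : ℝ => ρ ^ β) (β * 1 ^ (β - 1)) 1 :=
    Real.hasDerivAt_rpow_const (Or.inl one_ne_zero)
  rw [Real.one_rpow, mul_one] at h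
  have h2 := (hasDerivAt_iff_tendsto_slope.1 h).mono_left
    (nhdsWithin_mono 1 (fun x hx => by
      simp only [Set.mem_Ioi] at hx
      simp only [Set.mem_compl_iff, Set.mem_singleton_iff]
      exact hx.ne') : nhdsWithin (1 : ℝ) (Set.Ioi 1) ≤ nhdsWithin 1 {1}ᶜ)
  have h3 := h2.inv₀ hβ.ne'
  rw [one_div]
  refine h3.congr fun ρ => ?_
  rw [slope_def_field, Real.one_rpow, inv_div]

/-- Regular variation: a block asymptotic gives an asymptotic. -/
theorem tendsto_of_blocks {F : ℝ → ℝ} (hF : Monotone F) (hF0 : ∀ Y, 0 ≤ F Y) {β γ c : ℝ}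
    (hβ : 0 < β) (hc : 0 < c)
    (hu : ∀ ρ : ℝ, 1 < ρ → ρ ≤ 2 → ∀ U, c * (ρ - 1) < U →
      ∀ᶠ Y : ℝ in atTop, F (ρ * Y) - F Y ≤ U * Y ^ β)
    (hl : ∀ ρ : ℝ, 1 < ρ → ρ ≤ 2 → ∀ L, L < c * ρ ^ (-γ) * (ρ - 1) →
      ∀ᶠ Y : ℝ in atTop, L * Y ^ β ≤ F (ρ * Y) - F Y) :
    Tendsto (fun Y : ℝ => F Y / Y ^ β) atTop (nhds (c / β)) := by
  have hcβ : 0 < c / β := by positivity
  have h2 : ∀ᶠ ρ : ℝ in nhdsWithin 1 (Set.Ioi 1), ρ ≤ 2 :=
    mem_nhdsWithin_of_mem_nhds (Iic_mem_nhds (by norm_num))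
  have h1 : ∀ᶠ ρ : ℝ in nhdsWithin 1 (Set.Ioi 1), 1 < ρ := self_mem_nhdsWithin
  have hYβ : Tendsto (fun Y : ℝ => Y ^ β) atTop atTop := tendsto_rpow_atTop hβ
  rw [tendsto_order]
  constructor
  · intro a ha
    -- lower bound
    have hlim : Tendsto (fun ρ : ℝ => c * ρ ^ (-γ) * ((ρ - 1) / (ρ ^ β - 1)))
        (nhdsWithin 1 (Set.Ioi 1)) (nhds (c / β)) := by
      have e1 : Tendsto (fun ρ : ℝ => ρ ^ (-γ)) (nhdsWithin 1 (Set.Ioi 1)) (nhds 1) := by
        have := (Real.continuousAt_rpow_const 1 (-γ) (Or.inl one_ne_zero)).tendsto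
        rw [Real.one_rpow] at this
        exact this.mono_left nhdsWithin_le_nhds
      have := (e1.const_mul c).mul (ratio_tendsto hβ)
      rw [mul_one, mul_one_div] at this
      exact this
    set m : ℝ := max a 0 with hm
    have hm1 : m < c / β := max_lt ha hcβ
    have hm0 : 0 ≤ m := le_max_right _ _
    set a' : ℝ := (m + c / β) / 2 with ha'
    have ha1 : m < a' := by rw [ha']; linarith
    have ha2 : a' < c / β := by rw [ha']; linarith
    have ha0 : 0 < a' := by linarith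
    obtain ⟨ρ, hρ, hρ1, hρ2⟩ := ((hlim.eventually_const_lt ha2).and (h1.and h2)).exists
    have hρβ : 0 < ρ ^ β - 1 := by
      have := Real.one_lt_rpow hρ1 hβ
      linarith
    have hL : a' * (ρ ^ β - 1) < c * ρ ^ (-γ) * (ρ - 1) := by
      rw [← mul_div_assoc, lt_div_iff₀ hρβ] at hρ
      exact hρ
    obtain ⟨Y₁, hY₁⟩ := eventually_atTop.1 (hl ρ hρ1 hρ2 _ hL)
    set Y₀ : ℝ := max Y₁ 1 with hY₀
    have hY₀0 : 0 < Y₀ := lt_of_lt_of_le one_pos (le_max_right _ _)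
    have key := geom_lower hF0 hρ1 hβ (by positivity : 0 ≤ a' * (ρ ^ β - 1)) hY₀0
      (fun Y hY => hY₁ Y (le_trans (le_max_left _ _) hY))
    have hlim2 : Tendsto (fun Y : ℝ => a' * (1 - (ρ * Y₀) ^ β / Y ^ β)) atTop (nhds a') := by
      have h3 : Tendsto (fun Y : ℝ => (ρ * Y₀) ^ β / Y ^ β) atTop (nhds 0) :=
        Tendsto.div_atTop tendsto_const_nhds hYβ
      have := (tendsto_const_nhds (x := (1 : ℝ)).sub h3).const_mul a'
      rwa [sub_zero, mul_one] at this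
    filter_upwards [hlim2.eventually_const_lt (lt_of_le_of_lt (le_max_left a 0) ha1),
      eventually_ge_atTop Y₀] with Y hY hYY
    have hY0 : 0 < Y := by linarith
    have hYp : 0 < Y ^ β := by positivity
    refine lt_of_lt_of_le hY ?_
    rw [le_div_iff₀ hYp]
    have h4 := key Y hYY
    rw [mul_div_cancel_right₀ _ hρβ.ne'] at h4
    refine le_trans (le_of_eq ?_) h4
    field_simp
  · intro a ha
    have hlim : Tendsto (fun ρ : ℝ => c * ((ρ - 1) / (ρ ^ β - 1)))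
        (nhdsWithin 1 (Set.Ioi 1)) (nhds (c / β)) := by
      have := (ratio_tendsto hβ).const_mul c
      rwa [mul_one_div] at this
    set a' : ℝ := (a + c / β) / 2 with ha'
    have ha1 : a' < a := by rw [ha']; linarith
    have ha2 : c / β < a' := by rw [ha']; linarith
    have ha0 : 0 < a' := by linarith
    obtain ⟨ρ, hρ, hρ1, hρ2⟩ := ((hlim.eventually_lt_const ha2).and (h1.and h2)).exists
    have hρβ : 0 < ρ ^ β - 1 := by
      have := Real.one_lt_rpow hρ1 hβ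
      linarith
    have hL : c * (ρ - 1) < a' * (ρ ^ β - 1) := by
      rw [← mul_div_assoc, div_lt_iff₀ hρβ] at hρ
      exact hρ
    obtain ⟨Y₁, hY₁⟩ := eventually_atTop.1 (hu ρ hρ1 hρ2 _ hL)
    set Y₀ : ℝ := max Y₁ 1 with hY₀
    have hY₀0 : 0 < Y₀ := lt_of_lt_of_le one_pos (le_max_right _ _)
    have key := geom_upper hF hρ1 hβ (by positivity : 0 ≤ a' * (ρ ^ β - 1)) hY₀0
      (fun Y hY => hY₁ Y (le_trans (le_max_left _ _) hY))
    have hlim2 : Tendsto (fun Y : ℝ => F (ρ * Y₀) / Y ^ β + a') atTop (nhds a') := by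
      have h3 : Tendsto (fun Y : ℝ => F (ρ * Y₀) / Y ^ β) atTop (nhds 0) :=
        Tendsto.div_atTop tendsto_const_nhds hYβ
      have := h3.add_const a'
      rwa [zero_add] at this
    filter_upwards [hlim2.eventually_lt_const ha1, eventually_ge_atTop Y₀] with Y hY hYY
    have hY0 : 0 < Y := by linarith
    have hYp : 0 < Y ^ β := by positivity
    refine lt_of_le_of_lt ?_ hY
    rw [div_le_iff₀ hYp]
    have h4 := key Y hYY
    rw [mul_div_cancel_right₀ _ hρβ.ne'] at h4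
    refine le_trans h4 (le_of_eq ?_)
    field_simp

end Pool.Agent.PGap
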