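import Pool.Agent.PGap.Block
import Pool.Agent.PGap.Geom

open Finset Real Filter

namespace Pool.Agent.PGap

open Pool.Agent.ANT

/-- Number of `y ≤ Y` with a small fractional part of `x y`. -/
noncomputable def cnt (x : ℕ → ℝ) (c γ : ℝ) (Y : ℝ) : ℝ :=
  (((Ioc 0 ⌊Y⌋₊).filter (fun y => Int.fract (x y) ≤ c * (y : ℝ) ^ (-γ))).card : ℝ)

theorem cnt_nonneg (x : ℕ → ℝ) (c γ : ℝ) (Y : ℝ) : 0 ≤ cnt x c γ Y := Nat.cast_nonneg _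

theorem cnt_mono (x : ℕ → ℝ) (c γ : ℝ) : Monotone (cnt x c γ) := by
  intro Y Z h
  unfold cnt
  have h1 : ⌊Y⌋₊ ≤ ⌊Z⌋₊ := Nat.floor_le_floor h
  exact_mod_cast Finset.card_le_card (Finset.filter_subset_filter _ (Finset.Ioc_subset_Ioc_right h1))

theorem cnt_sub (x : ℕ → ℝ) (c γ : ℝ) {Y Z : ℝ} (h : Y ≤ Z) :
    cnt x c γ Z - cnt x c γ Y =
      (((Ioc ⌊Y⌋₊ ⌊Z⌋₊).filter (fun y => Int.fract (x y) ≤ c * (y : ℝ) ^ (-γ))).card : ℝ) := by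
  have h1 : ⌊Y⌋₊ ≤ ⌊Z⌋₊ := Nat.floor_le_floor h
  have e : Ioc 0 ⌊Z⌋₊ = Ioc 0 ⌊Y⌋₊ ∪ Ioc ⌊Y⌋₊ ⌊Z⌋₊ :=
    (Finset.Ioc_union_Ioc_eq_Ioc (Nat.zero_le _) h1).symm
  have hd : Disjoint (Ioc 0 ⌊Y⌋₊) (Ioc ⌊Y⌋₊ ⌊Z⌋₊) := by
    rw [Finset.disjoint_left]
    intro a ha hb
    rw [Finset.mem_Ioc] at ha hb
    omega
  unfold cnt
  rw [e, Finset.filter_union, Finset.card_union_of_disjoint (Finset.disjoint_filter_filter hd)]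
  push_cast
  ring

theorem cnt_asym {x : ℕ → ℝ} {K₁ K₂ b₁ b₂ p₁ p₂ : ℝ} (hx : ExpBd x K₁ K₂ b₁ b₂ p₁ p₂)
    (hK₁ : 0 ≤ K₁) (hK₂ : 0 ≤ K₂) {γ s₁ s₂ : ℝ} (hγ : 0 ≤ γ) (hγ1 : γ < 1)
    (hs₁ : 0 ≤ s₁) (hs₁' : s₁ ≤ 2)
    (hs₂ : 0 ≤ s₂) (hs₂' : s₂ ≤ 2) (hc₁ : s₁ + p₁ < 1) (hc₂ : s₂ + p₂ < 1)
    (hd₁ : b₁ + γ * (2 - s₁) < 1) (hd₂ : b₂ + γ * (2 - s₂) < 1)
    {c : ℝ} (hc : 0 < c) (hc1 : 0 < γ ∨ c < 1) :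
    Tendsto (fun Y : ℝ => cnt x c γ Y / Y ^ (1 - γ)) atTop (nhds (c / (1 - γ))) := by
  have hfl : Tendsto (fun Y : ℝ => ((⌊Y⌋₊ : ℝ)) / Y) atTop (nhds 1) := tendsto_nat_floor_div_atTop
  have hfl2 : ∀ ρ : ℝ, 0 ≤ ρ → Tendsto (fun Y : ℝ => ((⌊ρ * Y⌋₊ : ℝ)) / Y) atTop (nhds ρ) :=
    fun ρ hρ => tendsto_nat_floor_mul_div_atTop hρ
  have hflt : Tendsto (fun Y : ℝ => ⌊Y⌋₊) atTop atTop := tendsto_nat_floor_atTop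
  -- common part
  have common : ∀ ρ : ℝ, 1 < ρ → ρ ≤ 2 → ∀ ε : ℝ, 0 < ε → ε ≤ 1 → ∀ᶠ Y : ℝ in atTop, 0 < Y ∧
      1 ≤ ⌊Y⌋₊ ∧ ⌊Y⌋₊ ≤ ⌊ρ * Y⌋₊ ∧
      (∀ δ : ℝ, c * 4 ^ (-γ) * (⌊Y⌋₊ : ℝ) ^ (-γ) ≤ δ → δ < 1 →
        |(((Ioc ⌊Y⌋₊ ⌊ρ * Y⌋₊).filter (fun y => Int.fract (x y) ≤ δ)).card : ℝ)
          - δ * ((⌊ρ * Y⌋₊ : ℝ) - ⌊Y⌋₊)| ≤ ε * (δ * ((⌊ρ * Y⌋₊ : ℝ) - ⌊Y⌋₊))) ∧
      c * (⌊Y⌋₊ : ℝ) ^ (-γ) < 1 ∧ (⌊ρ * Y⌋₊ : ℝ) ≤ 4 * ⌊Y⌋₊ := by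
    intro ρ hρ1 hρ2 ε hε hε1
    have hb := hflt.eventually (block hx hK₁ hK₂ hγ hs₁ hs₁' hs₂ hs₂' hc₁ hc₂ hd₁ hd₂
      (κ := (ρ - 1) / 2) (c := c * 4 ^ (-γ)) (ε := ε) (by linarith) (by positivity) hε hε1)
    have h1 := (hfl2 ρ (by linarith)).sub (hfl.const_mul ((ρ - 1) / 2 + 1))
    have h1' := h1.eventually_const_lt (show (0 : ℝ) < ρ - ((ρ - 1) / 2 + 1) * 1 by linarith)
    have h2 := (hfl.const_mul 4).sub (hfl2 ρ (by linarith))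
    have h2' := h2.eventually_const_lt (show (0 : ℝ) < 4 * 1 - ρ by linarith)
    have h3 : ∀ᶠ Y : ℝ in atTop, c * (⌊Y⌋₊ : ℝ) ^ (-γ) < 1 := by
      rcases hc1 with h | h
      · have := (((tendsto_rpow_neg_atTop h).comp tendsto_natCast_atTop_atTop).comp hflt).const_mul c
        rw [mul_zero] at this
        filter_upwards [this.eventually_lt_const one_pos] with Y hY
        exact hY
      · rcases hγ.eq_or_lt with h0 | h0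
        · rw [← h0]
          filter_upwards with Y
          simpa using h
        · have := (((tendsto_rpow_neg_atTop h0).comp tendsto_natCast_atTop_atTop).comp hflt).const_mul c
          rw [mul_zero] at this
          filter_upwards [this.eventually_lt_const one_pos] with Y hY
          exact hY
    filter_upwards [hb, h1', h2', h3, eventually_gt_atTop 0, hflt.eventually_ge_atTop 1] with
      Y hb h1 h2 h3 hY0 hY1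
    have g1 : (ρ - 1) / 2 * (⌊Y⌋₊ : ℝ) ≤ (⌊ρ * Y⌋₊ : ℝ) - ⌊Y⌋₊ := by
      have e : (⌊ρ * Y⌋₊ : ℝ) / Y - ((ρ - 1) / 2 + 1) * ((⌊Y⌋₊ : ℝ) / Y)
          = ((⌊ρ * Y⌋₊ : ℝ) - ((ρ - 1) / 2 + 1) * ⌊Y⌋₊) / Y := by ring
      rw [e] at h1
      have := (div_pos_iff_of_pos_right hY0).1 h1
      linarith
    have g2 : (⌊ρ * Y⌋₊ : ℝ) ≤ 4 * ⌊Y⌋₊ := by
      have e : 4 * ((⌊Y⌋₊ : ℝ) / Y) - (⌊ρ * Y⌋₊ : ℝ) / Y = (4 * (⌊Y⌋₊ : ℝ) - ⌊ρ * Y⌋₊) / Y := by ring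
      rw [e] at h2
      have := (div_pos_iff_of_pos_right hY0).1 h2
      linarith
    refine ⟨hY0, hY1, Nat.floor_le_floor (by nlinarith), fun δ h4 h5 => ?_, h3, g2⟩
    exact hb _ g1 (by exact_mod_cast g2) δ h4 h5
  refine tendsto_of_blocks (cnt_mono x c γ) (cnt_nonneg x c γ) (γ := γ) (by linarith) hc ?_ ?_
  · intro ρ hρ1 hρ2 U hU
    obtain ⟨ε, hε, hε1, hεU⟩ : ∃ ε : ℝ, 0 < ε ∧ ε ≤ 1 ∧ (1 + ε) * (c * (ρ - 1)) < U := by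
      have hP : 0 < c * (ρ - 1) := mul_pos hc (by linarith)
      have hr : ρ - 1 ≠ 0 := (by linarith : (0 : ℝ) < ρ - 1).ne'
      refine ⟨min 1 ((U - c * (ρ - 1)) / (2 * (c * (ρ - 1)))), lt_min one_pos (div_pos (by linarith)
        (by positivity)), min_le_left _ _, ?_⟩
      have h : min 1 ((U - c * (ρ - 1)) / (2 * (c * (ρ - 1)))) * (c * (ρ - 1)) ≤ (U - c * (ρ - 1)) / 2 := by
        calc _ ≤ ((U - c * (ρ - 1)) / (2 * (c * (ρ - 1)))) * (c * (ρ - 1)) :=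
              mul_le_mul_of_nonneg_right (min_le_right _ _) hP.le
          _ = _ := by field_simp
      linarith
    have hlim : Tendsto (fun Y : ℝ => (1 + ε) * (c * (((⌊Y⌋₊ : ℝ) / Y) ^ (-γ) *
        ((⌊ρ * Y⌋₊ : ℝ) / Y - (⌊Y⌋₊ : ℝ) / Y)))) atTop (nhds ((1 + ε) * (c * (1 ^ (-γ) * (ρ - 1))))) :=
      (((hfl.rpow_const (Or.inl one_ne_zero)).mul
        ((hfl2 ρ (by linarith)).sub hfl)).const_mul c).const_mul (1 + ε)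
    rw [Real.one_rpow, one_mul] at hlim
    filter_upwards [common ρ hρ1 hρ2 ε hε hε1, hlim.eventually_lt_const hεU] with Y hc5 hY
    obtain ⟨hY0, hA1, hAB, hblk, hδ1, hB4⟩ := hc5
    have hA0 : (0 : ℝ) < ⌊Y⌋₊ := by exact_mod_cast hA1
    have hAB' : (⌊Y⌋₊ : ℝ) ≤ ⌊ρ * Y⌋₊ := by exact_mod_cast hAB
    rw [cnt_sub x c γ (by nlinarith)]
    have hδ := hblk (c * (⌊Y⌋₊ : ℝ) ^ (-γ)) (by
      have : (4 : ℝ) ^ (-γ) ≤ 1 := Real.rpow_le_one_of_one_le_of_nonpos (by norm_num) (by linarith)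
      have h0 : 0 ≤ c * (⌊Y⌋₊ : ℝ) ^ (-γ) := by positivity
      nlinarith) hδ1
    have hsub : (((Ioc ⌊Y⌋₊ ⌊ρ * Y⌋₊).filter (fun y => Int.fract (x y) ≤ c * (y : ℝ) ^ (-γ))).card : ℝ)
        ≤ (((Ioc ⌊Y⌋₊ ⌊ρ * Y⌋₊).filter (fun y => Int.fract (x y) ≤ c * (⌊Y⌋₊ : ℝ) ^ (-γ))).card : ℝ) := by
      have : (Ioc ⌊Y⌋₊ ⌊ρ * Y⌋₊).filter (fun y => Int.fract (x y) ≤ c * (y : ℝ) ^ (-γ)) ⊆
          (Ioc ⌊Y⌋₊ ⌊ρ * Y⌋₊).filter (fun y => Int.fract (x y) ≤ c * (⌊Y⌋₊ : ℝ) ^ (-γ)) := by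
        intro y hy
        rw [Finset.mem_filter, Finset.mem_Ioc] at hy ⊢
        refine ⟨hy.1, hy.2.trans ?_⟩
        have hy1 : (⌊Y⌋₊ : ℝ) ≤ y := by exact_mod_cast hy.1.1.le
        exact mul_le_mul_of_nonneg_left (Real.rpow_le_rpow_of_nonpos hA0 hy1 (by linarith)) hc.le
      exact_mod_cast Finset.card_le_card this
    have h6 := (abs_le.1 hδ).2
    have e : (1 + ε) * (c * (((⌊Y⌋₊ : ℝ) / Y) ^ (-γ) * ((⌊ρ * Y⌋₊ : ℝ) / Y - (⌊Y⌋₊ : ℝ) / Y))) * Y ^ (1 - γ)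
        = (1 + ε) * (c * (⌊Y⌋₊ : ℝ) ^ (-γ) * ((⌊ρ * Y⌋₊ : ℝ) - ⌊Y⌋₊)) := by
      rw [Real.div_rpow hA0.le hY0.le, Real.rpow_neg hY0.le, show (1 : ℝ) - γ = -γ + 1 by ring,
        Real.rpow_add_one hY0.ne', Real.rpow_neg hY0.le]
      have : (0 : ℝ) < Y ^ γ := by positivity
      field_simp
    have h7 : 0 < Y ^ (1 - γ) := by positivity
    calc _ ≤ (1 + ε) * (c * (⌊Y⌋₊ : ℝ) ^ (-γ) * ((⌊ρ * Y⌋₊ : ℝ) - ⌊Y⌋₊)) := by linarith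
      _ = _ := e.symm
      _ ≤ U * Y ^ (1 - γ) := mul_le_mul_of_nonneg_right hY.le h7.le
  · intro ρ hρ1 hρ2 L hL
    have hP : 0 < c * ρ ^ (-γ) * (ρ - 1) := by
      have : 0 < ρ - 1 := by linarith
      have : 0 < ρ := by linarith
      positivity
    have hr : ρ - 1 ≠ 0 := (by linarith : (0 : ℝ) < ρ - 1).ne'
    obtain ⟨ε, hε, hε1, hεL⟩ : ∃ ε : ℝ, 0 < ε ∧ ε ≤ 1 ∧ L < (1 - ε) * (c * ρ ^ (-γ) * (ρ - 1)) := by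
      refine ⟨min 1 ((c * ρ ^ (-γ) * (ρ - 1) - L) / (2 * (c * ρ ^ (-γ) * (ρ - 1)))), lt_min one_pos
        (div_pos (by linarith) (by positivity)), min_le_left _ _, ?_⟩
      have h : min 1 ((c * ρ ^ (-γ) * (ρ - 1) - L) / (2 * (c * ρ ^ (-γ) * (ρ - 1)))) *
          (c * ρ ^ (-γ) * (ρ - 1)) ≤ (c * ρ ^ (-γ) * (ρ - 1) - L) / 2 := by
        calc _ ≤ ((c * ρ ^ (-γ) * (ρ - 1) - L) / (2 * (c * ρ ^ (-γ) * (ρ - 1)))) *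
              (c * ρ ^ (-γ) * (ρ - 1)) := mul_le_mul_of_nonneg_right (min_le_right _ _) hP.le
          _ = _ := by field_simp
      linarith
    have hlim : Tendsto (fun Y : ℝ => (1 - ε) * (c * (((⌊ρ * Y⌋₊ : ℝ) / Y) ^ (-γ) *
        ((⌊ρ * Y⌋₊ : ℝ) / Y - (⌊Y⌋₊ : ℝ) / Y)))) atTop (nhds ((1 - ε) * (c * (ρ ^ (-γ) * (ρ - 1))))) :=
      ((((hfl2 ρ (by linarith)).rpow_const (Or.inl (by positivity))).mul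
        ((hfl2 ρ (by linarith)).sub hfl)).const_mul c).const_mul (1 - ε)
    rw [← mul_assoc c] at hlim
    filter_upwards [common ρ hρ1 hρ2 ε hε hε1, hlim.eventually_const_lt hεL] with Y hc5 hY
    obtain ⟨hY0, hA1, hAB, hblk, hδ1, hB4⟩ := hc5
    have hA0 : (0 : ℝ) < ⌊Y⌋₊ := by exact_mod_cast hA1
    have hAB' : (⌊Y⌋₊ : ℝ) ≤ ⌊ρ * Y⌋₊ := by exact_mod_cast hAB
    have hB0 : (0 : ℝ) < ⌊ρ * Y⌋₊ := by linarith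
    rw [cnt_sub x c γ (by nlinarith)]
    have hδ := hblk (c * (⌊ρ * Y⌋₊ : ℝ) ^ (-γ)) (by
      have : (4 * (⌊Y⌋₊ : ℝ)) ^ (-γ) ≤ (⌊ρ * Y⌋₊ : ℝ) ^ (-γ) :=
        Real.rpow_le_rpow_of_nonpos hB0 hB4 (by linarith)
      rw [Real.mul_rpow (by norm_num) hA0.le] at this
      nlinarith) (lt_of_le_of_lt (mul_le_mul_of_nonneg_left
        (Real.rpow_le_rpow_of_nonpos hA0 hAB' (by linarith)) hc.le) hδ1)
    have hsub : (((Ioc ⌊Y⌋₊ ⌊ρ * Y⌋₊).filter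
          (fun y => Int.fract (x y) ≤ c * (⌊ρ * Y⌋₊ : ℝ) ^ (-γ))).card : ℝ)
        ≤ (((Ioc ⌊Y⌋₊ ⌊ρ * Y⌋₊).filter (fun y => Int.fract (x y) ≤ c * (y : ℝ) ^ (-γ))).card : ℝ) := by
      have : (Ioc ⌊Y⌋₊ ⌊ρ * Y⌋₊).filter (fun y => Int.fract (x y) ≤ c * (⌊ρ * Y⌋₊ : ℝ) ^ (-γ)) ⊆
          (Ioc ⌊Y⌋₊ ⌊ρ * Y⌋₊).filter (fun y => Int.fract (x y) ≤ c * (y : ℝ) ^ (-γ)) := by
        intro y hy
        rw [Finset.mem_filter, Finset.mem_Ioc] at hy ⊢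
        refine ⟨hy.1, hy.2.trans ?_⟩
        have hy1 : (y : ℝ) ≤ ⌊ρ * Y⌋₊ := by exact_mod_cast hy.1.2
        have hy0 : (0 : ℝ) < y := by
          have : 0 < y := by omega
          exact_mod_cast this
        exact mul_le_mul_of_nonneg_left (Real.rpow_le_rpow_of_nonpos hy0 hy1 (by linarith)) hc.le
      exact_mod_cast Finset.card_le_card this
    have h6 := (abs_le.1 hδ).1
    have e : (1 - ε) * (c * (((⌊ρ * Y⌋₊ : ℝ) / Y) ^ (-γ) * ((⌊ρ * Y⌋₊ : ℝ) / Y - (⌊Y⌋₊ : ℝ) / Y)))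
        * Y ^ (1 - γ) = (1 - ε) * (c * (⌊ρ * Y⌋₊ : ℝ) ^ (-γ) * ((⌊ρ * Y⌋₊ : ℝ) - ⌊Y⌋₊)) := by
      rw [Real.div_rpow hB0.le hY0.le, Real.rpow_neg hY0.le, show (1 : ℝ) - γ = -γ + 1 by ring,
        Real.rpow_add_one hY0.ne', Real.rpow_neg hY0.le]
      have : (0 : ℝ) < Y ^ γ := by positivity
      field_simp
    have h7 : 0 < Y ^ (1 - γ) := by positivity
    calc L * Y ^ (1 - γ) ≤ _ := mul_le_mul_of_nonneg_right hY.le h7.le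
      _ = (1 - ε) * (c * (⌊ρ * Y⌋₊ : ℝ) ^ (-γ) * ((⌊ρ * Y⌋₊ : ℝ) - ⌊Y⌋₊)) := e
      _ ≤ _ := by linarith

end Pool.Agent.PGap
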