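import Pool.Agent.PGap.Upper

open Finset Real Filter

namespace Pool.Agent.PGap

theorem sc_strictMono : StrictMono sc := fun _ _ h => sc_lt h

open Classical in
theorem bad_card (B : ℕ) : ((Ioc 0 B).filter (fun y => ¬ Good y)).card ≤ (OthS ((sc B + 1) ^ 2)).card := by
  have hsub : ((Ioc 0 B).filter (fun y => ¬ Good y)).image sc ⊆ (OthS ((sc B + 1) ^ 2)).image Nat.sqrt := by
    intro x hx
    rw [Finset.mem_image] at hx
    obtain ⟨y, hy, rfl⟩ := hx
    rw [Finset.mem_filter, Finset.mem_Ioc] at hy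
    obtain ⟨⟨_, hyB⟩, hg⟩ := hy
    unfold Good at hg
    push Not at hg
    obtain ⟨t, ht, hts⟩ := hg
    rw [Finset.mem_image]
    refine ⟨t, ?_, hts⟩
    unfold OthS
    rw [Finset.mem_filter, Finset.mem_range]
    refine ⟨?_, ht⟩
    have h1 : t < (Nat.sqrt t + 1) ^ 2 := by rw [pow_two]; exact Nat.lt_succ_sqrt t
    have h2 : sc y ≤ sc B := sc_strictMono.monotone hyB
    have h3 : (Nat.sqrt t + 1) ^ 2 ≤ (sc B + 1) ^ 2 := Nat.pow_le_pow_left (by omega) 2
    omega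
  calc _ = (((Ioc 0 B).filter (fun y => ¬ Good y)).image sc).card :=
        (Finset.card_image_of_injective _ sc_strictMono.injective).symm
    _ ≤ ((OthS ((sc B + 1) ^ 2)).image Nat.sqrt).card := Finset.card_le_card hsub
    _ ≤ _ := Finset.card_image_le

theorem idx_inj {y z : ℕ} (hy : ¬ ∃ u, u ^ 2 = y) (hgy : Good y) (hz : ¬ ∃ u, u ^ 2 = z) (hgz : Good z)
    (h : idx y = idx z) : y = z := by
  classical
  have h1 := (good_low hy hgy).2.1
  have h2 := (good_low hz hgz).2.1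
  unfold idx at h
  rw [h, h2] at h1
  exact (Nat.pow_left_injective (n := 3) (by norm_num) h1).symm

/-- Non-squares without other powers around the cube. -/
def Nice (y₀ y : ℕ) : Prop := (¬ ∃ u, u ^ 2 = y) ∧ Good y ∧ y₀ ≤ y

theorem lower_bound {θ lam c : ℝ} (hc : c < lam / 2) : ∃ K : ℕ, ∀ N : ℕ, ∀ Y : ℝ, 0 ≤ Y →
    idx ⌊Y⌋₊ + 1 ≤ N →
    cnt (fun y => f3 y) c (3 / 2 * (1 - θ)) Y + cnt (fun y => -f3 y) c (3 / 2 * (1 - θ)) Y
      - (K + 2 * (√Y + 1) + 2 * ((OthS ((sc ⌊Y⌋₊ + 1) ^ 2)).card : ℝ)) ≤ ((E θ lam N).card : ℝ) := by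
  classical
  obtain ⟨y₁, hy₁⟩ := eventually_atTop.1 (low_b θ hc)
  obtain ⟨y₂, hy₂⟩ := eventually_atTop.1 (up_b θ hc)
  refine ⟨y₁ + y₂, fun N Y hY0 hYN => ?_⟩
  set B := ⌊Y⌋₊ with hB
  set S₁ := (Ioc 0 B).filter (fun y : ℕ => Int.fract (f3 (y : ℝ)) ≤ c * (y : ℝ) ^ (-(3 / 2 * (1 - θ)))) with hS₁
  set S₂ := (Ioc 0 B).filter (fun y : ℕ => Int.fract (-f3 (y : ℝ)) ≤ c * (y : ℝ) ^ (-(3 / 2 * (1 - θ)))) with hS₂
  set O := OthS ((sc B + 1) ^ 2) with hO
  set Sq := (range (Nat.sqrt B + 1)).image (fun u => u ^ 2) with hSq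
  have hSqc : Sq.card ≤ Nat.sqrt B + 1 := Finset.card_image_le.trans (by rw [Finset.card_range])
  have hdec : ∀ (S : Finset ℕ) (y₀ : ℕ), S ⊆ Ioc 0 B →
      S.card ≤ (S.filter (fun y => Nice y₀ y)).card + (Nat.sqrt B + 1 + (O.card + y₀)) := by
    intro S y₀ hS
    have hsub : S ⊆ S.filter (fun y => Nice y₀ y) ∪ (Sq ∪
        ((Ioc 0 B).filter (fun y => ¬ Good y) ∪ range y₀)) := by
      intro y hy
      have hyB := hS hy
      simp only [Finset.mem_union]
      by_cases h1 : ∃ u, u ^ 2 = y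
      · right; left
        obtain ⟨u, rfl⟩ := h1
        rw [hSq, Finset.mem_image]
        refine ⟨u, ?_, rfl⟩
        rw [Finset.mem_range]
        rw [Finset.mem_Ioc] at hyB
        have : u ≤ Nat.sqrt B := Nat.le_sqrt.2 (by rw [← pow_two]; exact hyB.2)
        omega
      by_cases h2 : Good y
      · by_cases h3 : y₀ ≤ y
        · left; rw [Finset.mem_filter]; exact ⟨hy, h1, h2, h3⟩
        · right; right; right; rw [Finset.mem_range]; omega
      · right; right; left; rw [Finset.mem_filter]; exact ⟨hyB, h2⟩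
    refine (Finset.card_le_card hsub).trans ?_
    refine (Finset.card_union_le _ _).trans (add_le_add le_rfl ?_)
    refine (Finset.card_union_le _ _).trans (add_le_add hSqc ?_)
    refine (Finset.card_union_le _ _).trans (add_le_add (bad_card B) ?_)
    rw [Finset.card_range]
  have d₁ := hdec S₁ y₁ (Finset.filter_subset _ _)
  have d₂ := hdec S₂ y₂ (Finset.filter_subset _ _)
  set S₁' := S₁.filter (fun y => Nice y₁ y) with hS₁'
  set S₂' := S₂.filter (fun y => Nice y₂ y) with hS₂'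
  have hidx : ∀ y, y ≤ B → idx y + 1 ≤ N := by
    intro y hy
    refine le_trans (Nat.add_le_add_right ?_ 1) hYN
    exact Nat.count_monotone _ (Nat.pow_le_pow_left hy 3)
  have hsubE : S₁'.image idx ∪ S₂'.image (fun y => idx y + 1) ⊆ E θ lam N := by
    intro n hn
    rw [Finset.mem_union, Finset.mem_image, Finset.mem_image] at hn
    unfold E
    rw [Finset.mem_filter, Finset.mem_Icc]
    rcases hn with ⟨y, hy, rfl⟩ | ⟨y, hy, rfl⟩
    · rw [hS₁', Finset.mem_filter, hS₁, Finset.mem_filter, Finset.mem_Ioc] at hy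
      obtain ⟨⟨⟨_, hyB⟩, hfr⟩, hsq, hg, hy1⟩ := hy
      obtain ⟨g1, g2, g3, _⟩ := good_low hsq hg
      have h1 := hidx y hyB
      refine ⟨⟨g1, by omega⟩, ?_⟩
      have h2 := hy₁ y hy1 hfr
      have e1 : b (idx y) = y ^ 3 := g2
      have e2 : b (idx y - 1) = sc y ^ 2 := g3
      rw [e1, e2]
      push_cast
      exact h2
    · rw [hS₂', Finset.mem_filter, hS₂, Finset.mem_filter, Finset.mem_Ioc] at hy
      obtain ⟨⟨⟨_, hyB⟩, hfr⟩, hsq, hg, hy1⟩ := hy
      obtain ⟨g1, g2, _, g4⟩ := good_low hsq hg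
      have h1 := hidx y hyB
      refine ⟨⟨by omega, h1⟩, ?_⟩
      have h2 := hy₂ y hy1 hsq hfr
      have e1 : b (idx y) = y ^ 3 := g2
      have e2 : b (idx y + 1) = (sc y + 1) ^ 2 := g4
      rw [Nat.add_sub_cancel, e1, e2]
      push_cast
      exact h2
  have hprop₁ : ∀ y ∈ S₁', (¬ ∃ u, u ^ 2 = y) ∧ Good y := by
    intro y hy
    rw [hS₁', Finset.mem_filter] at hy
    exact ⟨hy.2.1, hy.2.2.1⟩
  have hprop₂ : ∀ y ∈ S₂', (¬ ∃ u, u ^ 2 = y) ∧ Good y := by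
    intro y hy
    rw [hS₂', Finset.mem_filter] at hy
    exact ⟨hy.2.1, hy.2.2.1⟩
  have hc₁ : (S₁'.image idx).card = S₁'.card := Finset.card_image_of_injOn (fun y hy z hz h =>
    idx_inj (hprop₁ y hy).1 (hprop₁ y hy).2 (hprop₁ z hz).1 (hprop₁ z hz).2 h)
  have hc₂ : (S₂'.image (fun y => idx y + 1)).card = S₂'.card := Finset.card_image_of_injOn
    (fun y hy z hz h => idx_inj (hprop₂ y hy).1 (hprop₂ y hy).2 (hprop₂ z hz).1 (hprop₂ z hz).2
      (by simpa using h))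
  have hdisj : Disjoint (S₁'.image idx) (S₂'.image (fun y => idx y + 1)) := by
    rw [Finset.disjoint_left]
    intro n h1 h2
    rw [Finset.mem_image] at h1 h2
    obtain ⟨y, hy, h1⟩ := h1
    obtain ⟨z, hz, h2⟩ := h2
    have a1 := (good_low (hprop₁ y hy).1 (hprop₁ y hy).2).2.1
    have a2 := (good_low (hprop₂ z hz).1 (hprop₂ z hz).2).2.2.2
    have b1 : b (idx y) = y ^ 3 := a1
    have b2 : b (idx z + 1) = (sc z + 1) ^ 2 := a2
    rw [h1] at b1
    rw [h2, b1] at b2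
    exact cube_not_sq (hprop₁ y hy).1 ⟨_, b2.symm⟩
  have hE : S₁'.card + S₂'.card ≤ (E θ lam N).card := by
    rw [← hc₁, ← hc₂, ← Finset.card_union_of_disjoint hdisj]
    exact Finset.card_le_card hsubE
  have e1 : cnt (fun y => f3 y) c (3 / 2 * (1 - θ)) Y = S₁.card := rfl
  have e2 : cnt (fun y => -f3 y) c (3 / 2 * (1 - θ)) Y = S₂.card := rfl
  have hsB : (Nat.sqrt B : ℝ) ≤ √Y := by
    refine Real.nat_sqrt_le_real_sqrt.trans (Real.sqrt_le_sqrt ?_)
    exact Nat.floor_le hY0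
  have d₁' : (S₁.card : ℝ) ≤ S₁'.card + ((Nat.sqrt B : ℝ) + 1 + (O.card + y₁)) := by exact_mod_cast d₁
  have d₂' : (S₂.card : ℝ) ≤ S₂'.card + ((Nat.sqrt B : ℝ) + 1 + (O.card + y₂)) := by exact_mod_cast d₂
  have hE' : (S₁'.card : ℝ) + S₂'.card ≤ (E θ lam N).card := by exact_mod_cast hE
  rw [e1, e2]
  push_cast
  linarith

end Pool.Agent.PGap
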