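import Pool.Agent.PGap.Ratio
import Pool.Agent.PGap.Asym

open Finset Real Filter

namespace Pool.Agent.PGap

/-- The set of indices `1 ≤ n ≤ N` with a small gap. -/
noncomputable def E (θ lam : ℝ) (N : ℕ) : Finset ℕ :=
  (Icc 1 N).filter (fun n => ((b n : ℕ) : ℝ) - (b (n - 1) : ℕ) ≤ lam * (n : ℝ) ^ θ)

open Classical in
/-- Consecutive squares do not give small gaps. -/
theorem sq_gap {θ lam : ℝ} (hθ : 0 < θ) (hθ1 : θ ≤ 1) (h : θ < 1 ∨ lam < 2) (hlam : 0 < lam) :
    ∀ᶠ v : ℕ in atTop, lam * (Nat.count PP (v ^ 2) : ℝ) ^ θ < 2 * v - 1 := by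
  obtain ⟨C, hC, hb⟩ := count_bound
  have h1 : Tendsto (fun v : ℕ => 1 + C * (v : ℝ) ^ (-(1 / 3) : ℝ)) atTop (nhds (1 + C * 0)) :=
    (((tendsto_rpow_neg_atTop (show (0 : ℝ) < 1 / 3 by norm_num)).comp
      tendsto_natCast_atTop_atTop).const_mul C).const_add 1
  rw [mul_zero, add_zero] at h1
  have h2 : Tendsto (fun v : ℕ => lam * ((1 + C * (v : ℝ) ^ (-(1 / 3) : ℝ)) ^ θ * (v : ℝ) ^ (θ - 1)) + 1 / v)
      atTop (nhds (if θ < 1 then 0 else lam)) := by
    have e1 : Tendsto (fun v : ℕ => 1 / (v : ℝ)) atTop (nhds 0) :=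
      tendsto_one_div_atTop_nhds_zero_nat
    have e2 : Tendsto (fun v : ℕ => (v : ℝ) ^ (θ - 1)) atTop (nhds (if θ < 1 then 0 else 1)) := by
      split_ifs with hlt
      · have := (tendsto_rpow_neg_atTop (show 0 < 1 - θ by linarith)).comp tendsto_natCast_atTop_atTop
        refine this.congr fun v => ?_
        simp only [Function.comp_apply]; congr 1; ring
      · have : θ = 1 := le_antisymm hθ1 (not_lt.1 hlt)
        subst this
        simp
    have e3 := (((h1.rpow_const (p := θ) (Or.inl one_ne_zero)).mul e2).const_mul lam).add e1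
    convert e3 using 2
    split_ifs <;> simp
  have h3 : (if θ < 1 then 0 else lam) < 2 := by
    split_ifs with hlt
    · norm_num
    · rcases h with h | h
      · exact absurd h hlt
      · exact h
  filter_upwards [h2.eventually_lt_const h3, eventually_ge_atTop 1] with v hv hv1
  have hv0 : (0 : ℝ) < v := by exact_mod_cast hv1
  have h4 := (abs_le.1 (hb (v ^ 2) (Nat.one_le_pow _ _ hv1))).2
  push_cast at h4
  rw [Real.sqrt_sq hv0.le] at h4
  have h5 : ((v : ℝ) ^ 2) ^ (1 / 3 : ℝ) = v * (v : ℝ) ^ (-(1 / 3) : ℝ) := by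
    rw [← Real.rpow_natCast, ← Real.rpow_mul hv0.le, ← Real.rpow_one_add' hv0.le (by norm_num)]
    norm_num
  rw [h5] at h4
  have h6 : (Nat.count PP (v ^ 2) : ℝ) ≤ v * (1 + C * (v : ℝ) ^ (-(1 / 3) : ℝ)) := by linarith
  have h7 : (Nat.count PP (v ^ 2) : ℝ) ^ θ ≤ v ^ θ * (1 + C * (v : ℝ) ^ (-(1 / 3) : ℝ)) ^ θ := by
    rw [← Real.mul_rpow hv0.le (by positivity)]
    exact Real.rpow_le_rpow (by positivity) h6 hθ.le
  have h8 : (lam * ((1 + C * (v : ℝ) ^ (-(1 / 3) : ℝ)) ^ θ * (v : ℝ) ^ (θ - 1)) + 1 / v) * v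
      = lam * (v ^ θ * (1 + C * (v : ℝ) ^ (-(1 / 3) : ℝ)) ^ θ) + 1 := by
    rw [Real.rpow_sub_one hv0.ne']; field_simp
  have h9 := mul_lt_mul_of_pos_right hv hv0
  rw [h8] at h9
  have h10 := mul_le_mul_of_nonneg_left h7 hlam.le
  linarith

theorem upper_bound {θ lam c : ℝ} (hθ : 0 < θ) (hθ1 : θ ≤ 1) (h : θ < 1 ∨ lam < 2) (hlam : 0 < lam)
    (hc : lam / 2 < c) : ∃ K : ℕ, ∀ N : ℕ, ((E θ lam N).card : ℝ) ≤ K +
      (cnt (fun y => f3 y) c (3 / 2 * (1 - θ)) (((N : ℝ) + 2) ^ (2 / 3 : ℝ)) +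
        cnt (fun y => -f3 y) c (3 / 2 * (1 - θ)) (((N : ℝ) + 2) ^ (2 / 3 : ℝ))) +
      2 * ((OthS ((N + 2) ^ 2)).card : ℝ) := by
  classical
  obtain ⟨v₀, hv₀⟩ := eventually_atTop.1 (sq_gap hθ hθ1 h hlam)
  obtain ⟨y₁, hy₁⟩ := eventually_atTop.1 (low_a θ hc)
  obtain ⟨y₂, hy₂⟩ := eventually_atTop.1 (up_a θ hc)
  refine ⟨(v₀ ^ 2 + 1) + y₁ + y₂, fun N => ?_⟩
  set Y : ℝ := ((N : ℝ) + 2) ^ (2 / 3 : ℝ) with hY
  set S₁ := (Ioc 0 ⌊Y⌋₊).filter (fun y : ℕ => Int.fract (f3 (y : ℝ)) ≤ c * (y : ℝ) ^ (-(3 / 2 * (1 - θ)))) with hS₁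
  set S₂ := (Ioc 0 ⌊Y⌋₊).filter (fun y : ℕ => Int.fract (-f3 (y : ℝ)) ≤ c * (y : ℝ) ^ (-(3 / 2 * (1 - θ)))) with hS₂
  set O := OthS ((N + 2) ^ 2) with hO
  have hYle : ∀ y : ℕ, y ^ 3 ≤ (N + 2) ^ 2 → y ≤ ⌊Y⌋₊ := by
    intro y hy
    refine Nat.le_floor ?_
    have h1 : ((y : ℝ) ^ 3) ≤ ((N : ℝ) + 2) ^ 2 := by exact_mod_cast hy
    calc (y : ℝ) = ((y : ℝ) ^ 3) ^ (1 / 3 : ℝ) := by
          rw [← Real.rpow_natCast, ← Real.rpow_mul (by positivity)]; norm_num
      _ ≤ (((N : ℝ) + 2) ^ 2) ^ (1 / 3 : ℝ) := Real.rpow_le_rpow (by positivity) h1 (by norm_num)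
      _ = Y := by rw [hY, ← Real.rpow_natCast, ← Real.rpow_mul (by positivity)]; norm_num
  have hsub : E θ lam N ⊆ range (v₀ ^ 2 + 1) ∪ ((range y₁).image idx ∪ ((range y₂).image (fun y => idx y + 1) ∪
      (S₁.image idx ∪ (S₂.image (fun y => idx y + 1) ∪
        (O.image (fun t => Nat.count PP t) ∪ O.image (fun t => Nat.count PP t + 1)))))) := by
    intro n hn
    unfold E at hn
    rw [Finset.mem_filter, Finset.mem_Icc] at hn
    obtain ⟨⟨hn1, hnN⟩, hgap⟩ := hn
    have hlt : b (n - 1) < b n := b_mono (by omega)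
    have hbn : b n ≤ (N + 2) ^ 2 := (b_mono.monotone hnN).trans (b_le N)
    simp only [Finset.mem_union]
    by_cases hn0 : n < v₀ ^ 2 + 1
    · left; exact Finset.mem_range.2 hn0
    right
    by_cases hO1 : Oth (b n)
    · right; right; right; right; left
      rw [Finset.mem_image]
      refine ⟨b n, ?_, count_b n⟩
      rw [hO]; unfold OthS
      rw [Finset.mem_filter, Finset.mem_range]
      exact ⟨by omega, hO1⟩
    by_cases hO2 : Oth (b (n - 1))
    · right; right; right; right; right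
      rw [Finset.mem_image]
      refine ⟨b (n - 1), ?_, ?_⟩
      · rw [hO]; unfold OthS
        rw [Finset.mem_filter, Finset.mem_range]
        exact ⟨by omega, hO2⟩
      · rw [count_b]; omega
    -- squares or cubes
    have hcube : ∀ t, PP t → ¬ Oth t → (¬ ∃ u, u ^ 2 = t) → ∃ y, y ^ 3 = t ∧ ¬ ∃ u, u ^ 2 = y := by
      intro t ht hto hts
      have h3 : ∃ y, y ^ 3 = t := by
        by_contra h3
        exact hto ⟨ht, hts, h3⟩
      obtain ⟨y, hy⟩ := h3
      refine ⟨y, hy, ?_⟩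
      rintro ⟨u, rfl⟩
      exact hts ⟨u ^ 3, by rw [← hy]; ring⟩
    by_cases hs1 : ∃ v, v ^ 2 = b n
    · obtain ⟨v, hv⟩ := hs1
      by_cases hs2 : ∃ u, u ^ 2 = b (n - 1)
      · -- both squares
        exfalso
        obtain ⟨u, hu⟩ := hs2
        have huv := both_sq hn1 hu hv
        have h1 : v₀ ≤ v := by
          have h2 : n ≤ b n := b_mono.id_le n
          by_contra hc
          push Not at hc
          have : v ^ 2 ≤ v₀ ^ 2 := Nat.pow_le_pow_left hc.le 2
          omega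
        have h2 := hv₀ v h1
        have h3 : Nat.count PP (v ^ 2) = n := by rw [hv, count_b]
        rw [h3] at h2
        rw [← hu, ← hv, huv] at hgap
        push_cast at hgap
        have h4 : (v : ℝ) = u + 1 := by rw [huv]; push_cast; ring
        rw [h4] at h2
        nlinarith
      · obtain ⟨y, hy, hyn⟩ := hcube _ (b_PP _) hO2 hs2
        have hvy := up_pair hn1 hyn hy hv
        have hi : idx y + 1 = n := by
          unfold idx
          rw [hy, count_b]; omega
        by_cases hy2 : y < y₂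
        · right; left
          rw [Finset.mem_image]
          exact ⟨y, Finset.mem_range.2 hy2, hi⟩
        · right; right; right; left
          rw [Finset.mem_image]
          refine ⟨y, ?_, hi⟩
          rw [hS₂, Finset.mem_filter, Finset.mem_Ioc]
          refine ⟨⟨by have := two_le_of_not_sq hyn; omega, hYle y (by rw [hy]; omega)⟩, ?_⟩
          refine hy₂ y (by omega) hyn ?_
          have h5 : (n : ℝ) = (idx y : ℝ) + 1 := by rw [← hi]; push_cast; ring
          rw [← hy, ← hv, hvy, h5] at hgap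
          push_cast at hgap
          exact hgap
    · obtain ⟨y, hy, hyn⟩ := hcube _ (b_PP _) hO1 hs1
      by_cases hs2 : ∃ u, u ^ 2 = b (n - 1)
      · obtain ⟨u, hu⟩ := hs2
        have huy := low_pair hn1 hyn hu hy
        have hi : idx y = n := by
          unfold idx
          rw [hy, count_b]
        by_cases hy1 : y < y₁
        · left
          rw [Finset.mem_image]
          exact ⟨y, Finset.mem_range.2 hy1, hi⟩
        · right; right; left
          rw [Finset.mem_image]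
          refine ⟨y, ?_, hi⟩
          rw [hS₁, Finset.mem_filter, Finset.mem_Ioc]
          refine ⟨⟨by have := two_le_of_not_sq hyn; omega, hYle y (by rw [hy]; exact hbn)⟩, ?_⟩
          refine hy₁ y (by omega) ?_
          rw [← hy, ← hu, huy, ← hi] at hgap
          push_cast at hgap
          exact hgap
      · exfalso
        obtain ⟨z, hz, _⟩ := hcube _ (b_PP _) hO2 hs2
        exact not_both_cubes hn1 hz hy hyn
  have hcard : (E θ lam N).card ≤ (v₀ ^ 2 + 1) + (y₁ + (y₂ + (S₁.card + (S₂.card + (O.card + O.card))))) := by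
    refine (Finset.card_le_card hsub).trans ?_
    refine (Finset.card_union_le _ _).trans (add_le_add (by rw [Finset.card_range]) ?_)
    refine (Finset.card_union_le _ _).trans (add_le_add (Finset.card_image_le.trans (by rw [Finset.card_range])) ?_)
    refine (Finset.card_union_le _ _).trans (add_le_add (Finset.card_image_le.trans (by rw [Finset.card_range])) ?_)
    refine (Finset.card_union_le _ _).trans (add_le_add Finset.card_image_le ?_)
    refine (Finset.card_union_le _ _).trans (add_le_add Finset.card_image_le ?_)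
    exact (Finset.card_union_le _ _).trans (add_le_add Finset.card_image_le Finset.card_image_le)
  have hcard' : ((E θ lam N).card : ℝ) ≤ ((v₀ : ℝ) ^ 2 + 1) + (y₁ + (y₂ + (S₁.card + (S₂.card + (O.card + O.card))))) := by
    exact_mod_cast hcard
  have e1 : cnt (fun y => f3 y) c (3 / 2 * (1 - θ)) Y = S₁.card := rfl
  have e2 : cnt (fun y => -f3 y) c (3 / 2 * (1 - θ)) Y = S₂.card := rfl
  rw [e1, e2]
  push_cast
  linarith

end Pool.Agent.PGap
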