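import Pool.Agent.PGap.Lower

open Finset Real Filter

namespace Pool.Agent.PGap

theorem cnt_f3 {θ : ℝ} (h1 : 8 / 9 < θ) (h2 : θ ≤ 1) {c : ℝ} (hc : 0 < c) (h : θ < 1 ∨ c < 1) :
    Tendsto (fun Y : ℝ => cnt (fun y => f3 y) c (3 / 2 * (1 - θ)) Y / Y ^ ((3 * θ - 1) / 2)) atTop
      (nhds (c / ((3 * θ - 1) / 2))) ∧
    Tendsto (fun Y : ℝ => cnt (fun y => -f3 y) c (3 / 2 * (1 - θ)) Y / Y ^ ((3 * θ - 1) / 2)) atTop
      (nhds (c / ((3 * θ - 1) / 2))) := by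
  have e : 1 - 3 / 2 * (1 - θ) = (3 * θ - 1) / 2 := by ring
  have hc1 : 0 < 3 / 2 * (1 - θ) ∨ c < 1 := by
    rcases h with h | h
    · left; linarith
    · right; exact h
  have key : ∀ x : ℕ → ℝ, ExpBd x 240 0 (3 / 4) 0 (1 / 2) 0 →
      Tendsto (fun Y : ℝ => cnt x c (3 / 2 * (1 - θ)) Y / Y ^ ((3 * θ - 1) / 2)) atTop
      (nhds (c / ((3 * θ - 1) / 2))) := by
    intro x hx
    rw [← e]
    refine cnt_asym hx (by norm_num) le_rfl (γ := 3 / 2 * (1 - θ))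
      (s₁ := 1 / 4 + 3 / 2 * (3 / 2 * (1 - θ))) (s₂ := 0) (by linarith) (by linarith) (by linarith)
      (by linarith) le_rfl (by norm_num) (by linarith) (by norm_num) ?_ (by linarith) hc hc1
    nlinarith
  exact ⟨key _ expBd_f3, key _ expBd_f3.neg⟩

theorem tendsto_neg_pow {e : ℝ} (he : e < 0) :
    Tendsto (fun N : ℕ => (N : ℝ) ^ e) atTop (nhds 0) := by
  have := (tendsto_rpow_neg_atTop (show 0 < -e by linarith)).comp tendsto_natCast_atTop_atTop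
  rw [neg_neg] at this
  exact this

theorem tendsto_shift (c : ℝ) (e : ℝ) :
    Tendsto (fun N : ℕ => (((N : ℝ) + c) / N) ^ e) atTop (nhds 1) := by
  have h1 : Tendsto (fun N : ℕ => 1 + c / (N : ℝ)) atTop (nhds (1 + 0)) :=
    (tendsto_const_nhds (x := (1 : ℝ))).add
      (Tendsto.div_atTop tendsto_const_nhds tendsto_natCast_atTop_atTop)
  rw [add_zero] at h1
  have h2 := h1.rpow_const (p := e) (Or.inl one_ne_zero)
  rw [Real.one_rpow] at h2
  refine h2.congr' ?_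
  filter_upwards [eventually_ge_atTop 1] with N hN
  have hN0 : (N : ℝ) ≠ 0 := by
    have : 0 < N := hN
    exact_mod_cast this.ne'
  congr 1
  field_simp

theorem lim_upper {θ : ℝ} (h1 : 8 / 9 < θ) (h2 : θ ≤ 1) {c : ℝ} (hc : 0 < c) (h : θ < 1 ∨ c < 1) (K : ℕ) :
    Tendsto (fun N : ℕ => ((K : ℝ) +
      (cnt (fun y => f3 y) c (3 / 2 * (1 - θ)) (((N : ℝ) + 2) ^ (2 / 3 : ℝ)) +
        cnt (fun y => -f3 y) c (3 / 2 * (1 - θ)) (((N : ℝ) + 2) ^ (2 / 3 : ℝ))) +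
      2 * ((OthS ((N + 2) ^ 2)).card : ℝ)) / (N : ℝ) ^ (θ - 1 / 3)) atTop
      (nhds (2 * (c / ((3 * θ - 1) / 2)))) := by
  obtain ⟨C, hC, hO⟩ := OthS_bound
  have hY : Tendsto (fun N : ℕ => ((N : ℝ) + 2) ^ (2 / 3 : ℝ)) atTop atTop :=
    (tendsto_rpow_atTop (by norm_num)).comp
      (tendsto_atTop_add_const_right _ _ tendsto_natCast_atTop_atTop)
  obtain ⟨a1, a2⟩ := cnt_f3 h1 h2 hc h
  have b1 := (a1.comp hY).mul (tendsto_shift 2 (θ - 1 / 3))
  have b2 := (a2.comp hY).mul (tendsto_shift 2 (θ - 1 / 3))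
  rw [mul_one] at b1 b2
  have eY : ∀ N : ℕ, 1 ≤ N → ∀ x : ℝ, x / (((N : ℝ) + 2) ^ (2 / 3 : ℝ)) ^ ((3 * θ - 1) / 2) *
      (((N : ℝ) + 2) / N) ^ (θ - 1 / 3) = x / (N : ℝ) ^ (θ - 1 / 3) := by
    intro N hN x
    have hN0 : (0 : ℝ) < N := by exact_mod_cast hN
    rw [← Real.rpow_mul (by positivity), show (2 / 3 : ℝ) * ((3 * θ - 1) / 2) = θ - 1 / 3 by ring,
      Real.div_rpow (by positivity) hN0.le]
    have : (0 : ℝ) < ((N : ℝ) + 2) ^ (θ - 1 / 3) := by positivity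
    field_simp
  have c1 : Tendsto (fun N : ℕ => cnt (fun y => f3 y) c (3 / 2 * (1 - θ)) (((N : ℝ) + 2) ^ (2 / 3 : ℝ)) /
      (N : ℝ) ^ (θ - 1 / 3)) atTop (nhds (c / ((3 * θ - 1) / 2))) := by
    refine b1.congr' ?_
    filter_upwards [eventually_ge_atTop 1] with N hN
    exact eY N hN _
  have c2 : Tendsto (fun N : ℕ => cnt (fun y => -f3 y) c (3 / 2 * (1 - θ)) (((N : ℝ) + 2) ^ (2 / 3 : ℝ)) /
      (N : ℝ) ^ (θ - 1 / 3)) atTop (nhds (c / ((3 * θ - 1) / 2))) := by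
    refine b2.congr' ?_
    filter_upwards [eventually_ge_atTop 1] with N hN
    exact eY N hN _
  have c3 : Tendsto (fun N : ℕ => (K : ℝ) / (N : ℝ) ^ (θ - 1 / 3)) atTop (nhds 0) :=
    Tendsto.div_atTop tendsto_const_nhds
      ((tendsto_rpow_atTop (by linarith)).comp tendsto_natCast_atTop_atTop)
  have c4 : Tendsto (fun N : ℕ => 2 * ((OthS ((N + 2) ^ 2)).card : ℝ) / (N : ℝ) ^ (θ - 1 / 3)) atTop
      (nhds 0) := by
    have d1 := ((tendsto_shift 2 (1 / 2)).mul (tendsto_neg_pow (show (1 / 2 : ℝ) - (θ - 1 / 3) < 0 by linarith))).const_mul (2 * C)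
    rw [mul_zero, mul_zero] at d1
    refine squeeze_zero' ?_ ?_ d1
    · filter_upwards with N; positivity
    · filter_upwards [eventually_ge_atTop 1] with N hN
      have hN0 : (0 : ℝ) < N := by exact_mod_cast hN
      have d2 := hO ((N + 2) ^ 2) (Nat.one_le_pow _ _ (by omega))
      have d3 : (((N + 2) ^ 2 : ℕ) : ℝ) ^ (1 / 4 : ℝ) = ((N : ℝ) + 2) ^ (1 / 2 : ℝ) := by
        push_cast
        rw [← Real.rpow_natCast, ← Real.rpow_mul (by positivity)]; norm_num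
      rw [d3] at d2
      rw [div_le_iff₀ (by positivity)]
      have d4 : 2 * C * ((((N : ℝ) + 2) / N) ^ (1 / 2 : ℝ) * (N : ℝ) ^ ((1 / 2 : ℝ) - (θ - 1 / 3))) *
          (N : ℝ) ^ (θ - 1 / 3) = 2 * (C * ((N : ℝ) + 2) ^ (1 / 2 : ℝ)) := by
        rw [Real.div_rpow (by positivity) hN0.le, Real.rpow_sub hN0]
        have : (0 : ℝ) < (N : ℝ) ^ (1 / 2 : ℝ) := by positivity
        have : (0 : ℝ) < (N : ℝ) ^ (θ - 1 / 3) := by positivity
        field_simp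
      rw [d4]; linarith
  have := (c3.add (c1.add c2)).add c4
  have e2 : 0 + (c / ((3 * θ - 1) / 2) + c / ((3 * θ - 1) / 2)) + 0 = 2 * (c / ((3 * θ - 1) / 2)) := by ring
  rw [e2] at this
  refine this.congr fun N => ?_
  ring

theorem lim_lower {θ : ℝ} (h1 : 8 / 9 < θ) (h2 : θ ≤ 1) {c r : ℝ} (hc : 0 < c) (h : θ < 1 ∨ c < 1)
    (hr : 0 < r) (hr1 : r < 1) (K : ℕ) :
    (∀ᶠ N : ℕ in atTop, idx ⌊(r * N) ^ (2 / 3 : ℝ)⌋₊ + 1 ≤ N) ∧
    Tendsto (fun N : ℕ => (cnt (fun y => f3 y) c (3 / 2 * (1 - θ)) ((r * N) ^ (2 / 3 : ℝ)) +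
        cnt (fun y => -f3 y) c (3 / 2 * (1 - θ)) ((r * N) ^ (2 / 3 : ℝ)) -
        ((K : ℝ) + 2 * (√((r * N) ^ (2 / 3 : ℝ)) + 1) +
      2 * ((OthS ((sc ⌊(r * N) ^ (2 / 3 : ℝ)⌋₊ + 1) ^ 2)).card : ℝ))) / (N : ℝ) ^ (θ - 1 / 3)) atTop
      (nhds (2 * (c / ((3 * θ - 1) / 2)) * r ^ (θ - 1 / 3))) := by
  obtain ⟨C, hC, hO⟩ := OthS_bound
  have hrN : Tendsto (fun N : ℕ => r * (N : ℝ)) atTop atTop :=
    tendsto_natCast_atTop_atTop.const_mul_atTop hr
  have hY : Tendsto (fun N : ℕ => (r * N : ℝ) ^ (2 / 3 : ℝ)) atTop atTop :=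
    (tendsto_rpow_atTop (by norm_num)).comp hrN
  have hfl : ∀ N : ℕ, f3 ((⌊(r * N : ℝ) ^ (2 / 3 : ℝ)⌋₊ : ℕ) : ℝ) ≤ r * N := by
    intro N
    have hp : (0 : ℝ) ≤ r * N := by positivity
    have g1 : ((⌊(r * N : ℝ) ^ (2 / 3 : ℝ)⌋₊ : ℕ) : ℝ) ≤ (r * N : ℝ) ^ (2 / 3 : ℝ) := Nat.floor_le (by positivity)
    rw [f3_eq]
    rw [Real.sqrt_le_left hp]
    push_cast
    calc _ ≤ ((r * N : ℝ) ^ (2 / 3 : ℝ)) ^ 3 := pow_le_pow_left₀ (by positivity) g1 3
      _ = (r * N) ^ 2 := by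
        rw [← Real.rpow_natCast, ← Real.rpow_mul hp, ← Real.rpow_natCast]; norm_num
  constructor
  · have g1 := (tendsto_succ tendsto_idx).comp (tendsto_nat_floor_atTop.comp hY)
    have g2 : (1 : ℝ) < 1 / r := by rw [lt_div_iff₀ hr]; linarith
    filter_upwards [g1.eventually_lt_const g2, (tendsto_nat_floor_atTop.comp hY).eventually_ge_atTop 1]
      with N hN hN1
    simp only [Function.comp_apply] at hN hN1
    have h0 := f3_pos hN1
    rw [div_lt_iff₀ h0] at hN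
    have g3 := hfl N
    have g4 : ((idx ⌊(r * N : ℝ) ^ (2 / 3 : ℝ)⌋₊ : ℕ) : ℝ) + 1 ≤ N := by
      have : 1 / r * f3 ((⌊(r * N : ℝ) ^ (2 / 3 : ℝ)⌋₊ : ℕ) : ℝ) ≤ 1 / r * (r * N) :=
        mul_le_mul_of_nonneg_left g3 (by positivity)
      have e : 1 / r * (r * (N : ℝ)) = N := by field_simp
      linarith
    exact_mod_cast g4
  obtain ⟨a1, a2⟩ := cnt_f3 h1 h2 hc h
  have b1 := (a1.comp hY).mul_const (r ^ (θ - 1 / 3))
  have b2 := (a2.comp hY).mul_const (r ^ (θ - 1 / 3))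
  have eY : ∀ N : ℕ, 1 ≤ N → ∀ x : ℝ, x / ((r * (N : ℝ)) ^ (2 / 3 : ℝ)) ^ ((3 * θ - 1) / 2) *
      r ^ (θ - 1 / 3) = x / (N : ℝ) ^ (θ - 1 / 3) := by
    intro N hN x
    have hN0 : (0 : ℝ) < N := by exact_mod_cast hN
    rw [← Real.rpow_mul (by positivity), show (2 / 3 : ℝ) * ((3 * θ - 1) / 2) = θ - 1 / 3 by ring,
      Real.mul_rpow hr.le hN0.le]
    have : (0 : ℝ) < r ^ (θ - 1 / 3) := by positivity
    field_simp
  have c1 : Tendsto (fun N : ℕ => cnt (fun y => f3 y) c (3 / 2 * (1 - θ)) ((r * N) ^ (2 / 3 : ℝ)) /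
      (N : ℝ) ^ (θ - 1 / 3)) atTop (nhds (c / ((3 * θ - 1) / 2) * r ^ (θ - 1 / 3))) := by
    refine b1.congr' ?_
    filter_upwards [eventually_ge_atTop 1] with N hN
    exact eY N hN _
  have c2 : Tendsto (fun N : ℕ => cnt (fun y => -f3 y) c (3 / 2 * (1 - θ)) ((r * N) ^ (2 / 3 : ℝ)) /
      (N : ℝ) ^ (θ - 1 / 3)) atTop (nhds (c / ((3 * θ - 1) / 2) * r ^ (θ - 1 / 3))) := by
    refine b2.congr' ?_
    filter_upwards [eventually_ge_atTop 1] with N hN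
    exact eY N hN _
  have c3 : Tendsto (fun N : ℕ => ((K : ℝ) + 2) / (N : ℝ) ^ (θ - 1 / 3)) atTop (nhds 0) :=
    Tendsto.div_atTop tendsto_const_nhds
      ((tendsto_rpow_atTop (by linarith)).comp tendsto_natCast_atTop_atTop)
  have c5 : Tendsto (fun N : ℕ => 2 * √((r * (N : ℝ)) ^ (2 / 3 : ℝ)) / (N : ℝ) ^ (θ - 1 / 3)) atTop
      (nhds 0) := by
    have d1 := (tendsto_neg_pow (show (1 / 3 : ℝ) - (θ - 1 / 3) < 0 by linarith)).const_mul 2
    rw [mul_zero] at d1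
    refine squeeze_zero' ?_ ?_ d1
    · filter_upwards with N; positivity
    · filter_upwards [eventually_ge_atTop 1] with N hN
      have hN0 : (0 : ℝ) < N := by exact_mod_cast hN
      have d2 : √((r * (N : ℝ)) ^ (2 / 3 : ℝ)) ≤ (N : ℝ) ^ (1 / 3 : ℝ) := by
        rw [Real.sqrt_eq_rpow, ← Real.rpow_mul (by positivity)]
        norm_num
        exact Real.rpow_le_rpow (by positivity) (by nlinarith) (by norm_num)
      rw [div_le_iff₀ (by positivity), mul_assoc, ← Real.rpow_add hN0]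
      rw [show (1 / 3 : ℝ) - (θ - 1 / 3) + (θ - 1 / 3) = 1 / 3 by ring]
      linarith
  have c4 : Tendsto (fun N : ℕ => 2 * ((OthS ((sc ⌊(r * (N : ℝ)) ^ (2 / 3 : ℝ)⌋₊ + 1) ^ 2)).card : ℝ) /
      (N : ℝ) ^ (θ - 1 / 3)) atTop (nhds 0) := by
    have d1 := ((tendsto_shift 1 (1 / 2)).mul (tendsto_neg_pow (show (1 / 2 : ℝ) - (θ - 1 / 3) < 0 by linarith))).const_mul (2 * C)
    rw [mul_zero, mul_zero] at d1
    refine squeeze_zero' ?_ ?_ d1
    · filter_upwards with N; positivity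
    · filter_upwards [eventually_ge_atTop 1] with N hN
      have hN0 : (0 : ℝ) < N := by exact_mod_cast hN
      set y := ⌊(r * (N : ℝ)) ^ (2 / 3 : ℝ)⌋₊ with hy
      have d2 := hO ((sc y + 1) ^ 2) (Nat.one_le_pow _ _ (by omega))
      have d5 : (sc y : ℝ) ≤ N := by
        have := Int.fract_nonneg (f3 (y : ℝ))
        rw [fract_f3] at this
        have := hfl N
        rw [← hy] at this
        nlinarith
      have d3 : (((sc y + 1) ^ 2 : ℕ) : ℝ) ^ (1 / 4 : ℝ) ≤ ((N : ℝ) + 1) ^ (1 / 2 : ℝ) := by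
        push_cast
        rw [← Real.rpow_natCast, ← Real.rpow_mul (by positivity)]
        norm_num
        exact Real.rpow_le_rpow (by positivity) (by linarith) (by norm_num)
      rw [div_le_iff₀ (by positivity)]
      have d4 : 2 * C * ((((N : ℝ) + 1) / N) ^ (1 / 2 : ℝ) * (N : ℝ) ^ ((1 / 2 : ℝ) - (θ - 1 / 3))) *
          (N : ℝ) ^ (θ - 1 / 3) = 2 * (C * ((N : ℝ) + 1) ^ (1 / 2 : ℝ)) := by
        rw [Real.div_rpow (by positivity) hN0.le, Real.rpow_sub hN0]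
        have : (0 : ℝ) < (N : ℝ) ^ (1 / 2 : ℝ) := by positivity
        have : (0 : ℝ) < (N : ℝ) ^ (θ - 1 / 3) := by positivity
        field_simp
      rw [d4]
      have := mul_le_mul_of_nonneg_left d3 hC.le
      linarith
  have := (c1.add c2).sub ((c3.add c5).add c4)
  have e2 : c / ((3 * θ - 1) / 2) * r ^ (θ - 1 / 3) + c / ((3 * θ - 1) / 2) * r ^ (θ - 1 / 3)
      - (0 + 0 + 0) = 2 * (c / ((3 * θ - 1) / 2)) * r ^ (θ - 1 / 3) := by ring
  rw [e2] at this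
  refine this.congr fun N => ?_
  ring

/-- The number of small gaps. -/
theorem main {θ lam : ℝ} (h1 : 8 / 9 < θ) (h2 : θ ≤ 1) (hlam : 0 < lam) (h : θ < 1 ∨ lam < 2) :
    Tendsto (fun N : ℕ => ((E θ lam N).card : ℝ) / (N : ℝ) ^ (θ - 1 / 3)) atTop
      (nhds (2 * lam / (3 * θ - 1))) := by
  have hβ : 0 < (3 * θ - 1) / 2 := by linarith
  have eL : 2 * lam / (3 * θ - 1) = 2 * ((lam / 2) / ((3 * θ - 1) / 2)) := by
    have : 3 * θ - 1 ≠ 0 := by linarith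
    field_simp
  rw [eL, tendsto_order]
  constructor
  · intro a ha
    have hl : Tendsto (fun t : ℝ => 2 * ((t * (lam / 2)) / ((3 * θ - 1) / 2)) * t ^ (θ - 1 / 3))
        (nhdsWithin 1 (Set.Iio 1)) (nhds (2 * ((1 * (lam / 2)) / ((3 * θ - 1) / 2)) * 1 ^ (θ - 1 / 3))) := by
      have g0 : Tendsto (fun t : ℝ => t) (nhdsWithin 1 (Set.Iio 1)) (nhds 1) :=
        tendsto_id.mono_left nhdsWithin_le_nhds
      exact (((g0.mul_const (lam / 2)).div_const _).const_mul 2).mul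
        (g0.rpow_const (Or.inl one_ne_zero))
    rw [Real.one_rpow, mul_one, one_mul] at hl
    have g1 : ∀ᶠ t : ℝ in nhdsWithin 1 (Set.Iio 1), t < 1 := self_mem_nhdsWithin
    have g2 : ∀ᶠ t : ℝ in nhdsWithin 1 (Set.Iio 1), 0 < t :=
      mem_nhdsWithin_of_mem_nhds (Ioi_mem_nhds one_pos)
    obtain ⟨t, ht, ht1, ht0⟩ := ((hl.eventually_const_lt ha).and (g1.and g2)).exists
    have hc : t * (lam / 2) < lam / 2 := by nlinarith
    have hc0 : 0 < t * (lam / 2) := by positivity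
    obtain ⟨K, hK⟩ := lower_bound (θ := θ) hc
    obtain ⟨q1, q2⟩ := lim_lower h1 h2 hc0 (by
      rcases h with h | h
      · left; exact h
      · right; linarith) ht0 ht1 K
    filter_upwards [q1, q2.eventually_const_lt ht, eventually_ge_atTop 1] with N n1 n2 n3
    have hN0 : (0 : ℝ) < N := by exact_mod_cast n3
    refine lt_of_lt_of_le n2 ?_
    exact div_le_div_of_nonneg_right (hK N _ (by positivity) n1) (by positivity)
  · intro a ha
    obtain ⟨c, hc1, hc2, hc3⟩ : ∃ c, lam / 2 < c ∧ 2 * (c / ((3 * θ - 1) / 2)) < a ∧ (θ < 1 ∨ c < 1) := by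
      have g0 : lam / 2 < a * ((3 * θ - 1) / 2) / 2 := by
        rw [← mul_div_assoc, gt_iff_lt, div_lt_iff₀ hβ] at ha
        linarith
      rcases h with h | h
      · refine ⟨(lam / 2 + a * ((3 * θ - 1) / 2) / 2) / 2, by linarith, ?_, Or.inl h⟩
        rw [← mul_div_assoc, div_lt_iff₀ hβ]
        linarith
      · refine ⟨(lam / 2 + min (a * ((3 * θ - 1) / 2) / 2) 1) / 2, ?_, ?_, Or.inr ?_⟩
        · have : lam / 2 < min (a * ((3 * θ - 1) / 2) / 2) 1 := lt_min g0 (by linarith)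
          linarith
        · rw [← mul_div_assoc, div_lt_iff₀ hβ]
          have : min (a * ((3 * θ - 1) / 2) / 2) 1 ≤ a * ((3 * θ - 1) / 2) / 2 := min_le_left _ _
          linarith
        · have : min (a * ((3 * θ - 1) / 2) / 2) 1 ≤ 1 := min_le_right _ _
          linarith
    obtain ⟨K, hK⟩ := upper_bound (by linarith : 0 < θ) h2 h hlam hc1
    have q := lim_upper h1 h2 (by linarith : 0 < c) hc3 K
    filter_upwards [q.eventually_lt_const hc2, eventually_ge_atTop 1] with N n2 n3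
    have hN0 : (0 : ℝ) < N := by exact_mod_cast n3
    refine lt_of_le_of_lt ?_ n2
    exact div_le_div_of_nonneg_right (hK N) (by positivity)

end Pool.Agent.PGap
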