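import Pool.Agent.PGap.TriSum

open Finset Real

namespace Pool.Agent.PGap

open Pool.Agent.ANT

theorem min_fract_le_abs (v : ℝ) : min (Int.fract v) (1 - Int.fract v) ≤ |v| := by
  rcases le_total 0 v with h | h
  · rw [abs_of_nonneg h]
    refine (min_le_left _ _).trans ?_
    rcases lt_or_ge v 1 with h1 | h1
    · exact (Int.fract_eq_self.2 ⟨h, h1⟩).le
    · exact (Int.fract_lt_one v).le.trans h1
  · rw [abs_of_nonpos h]
    rcases le_or_gt (-1) v with h1 | h1
    · rcases h.eq_or_lt with rfl | h2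
      · simp
      · refine (min_le_right _ _).trans ?_
        have : Int.fract v = v + 1 := by
          rw [show v = (v + 1) + ((-1 : ℤ) : ℝ) by push_cast; ring, Int.fract_add_intCast,
            Int.fract_eq_self.2 ⟨by linarith, by linarith⟩]
          push_cast; ring
        rw [this]; linarith
    · refine (min_le_right _ _).trans ?_
      have := Int.fract_nonneg v
      linarith

theorem T_ge {η : ℝ} (h0 : 0 < η) (v : ℝ) : 1 - |v| / η ≤ T η v := by
  unfold T
  refine le_trans ?_ (le_max_right _ _)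
  have := div_le_div_of_nonneg_right (min_fract_le_abs v) h0.le
  linarith

theorem T_fract (η x τ : ℝ) : T η (x - τ) = T η (Int.fract x - τ) := by
  have : Int.fract (x - τ) = Int.fract (Int.fract x - τ) := by
    conv_lhs => rw [← Int.fract_add_floor x]
    rw [show Int.fract x + (⌊x⌋ : ℝ) - τ = Int.fract x - τ + ⌊x⌋ by ring, Int.fract_add_intCast]
  unfold T
  rw [this]

theorem one_le_sum_T {η : ℝ} (h0 : 0 < η) {M : ℕ} (hM : 1 ≤ M) {x : ℝ}
    (hx : Int.fract x ≤ M * η) : 1 ≤ ∑ j ∈ range (M + 1), T η (x - j * η) := by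
  set u := Int.fract x with hu
  have hu0 : 0 ≤ u := Int.fract_nonneg x
  obtain ⟨j, hj, ha, hb⟩ : ∃ j : ℕ, j < M ∧ j * η ≤ u ∧ u ≤ (j + 1) * η := by
    rcases lt_or_ge (⌊u / η⌋₊) M with h | h
    · refine ⟨⌊u / η⌋₊, h, ?_, ?_⟩
      · have := Nat.floor_le (show 0 ≤ u / η by positivity)
        rwa [le_div_iff₀ h0] at this
      · have := (Nat.lt_floor_add_one (u / η)).le
        rwa [div_le_iff₀ h0] at this
    · refine ⟨M - 1, by omega, ?_, ?_⟩
      · have h1 : (M : ℝ) ≤ u / η := (Nat.le_floor_iff (by positivity)).1 h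
        rw [le_div_iff₀ h0] at h1
        have : ((M - 1 : ℕ) : ℝ) ≤ M := by exact_mod_cast Nat.sub_le M 1
        nlinarith
      · have : ((M - 1 : ℕ) : ℝ) + 1 = M := by
          have : M - 1 + 1 = M := by omega
          exact_mod_cast this
        rw [this]; exact hx
  have hsub : ({j, j + 1} : Finset ℕ) ⊆ range (M + 1) := by
    intro i hi
    simp only [Finset.mem_insert, Finset.mem_singleton] at hi
    rw [Finset.mem_range]; omega
  refine le_trans ?_ (Finset.sum_le_sum_of_subset_of_nonneg hsub (fun _ _ _ => T_nonneg _ _))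
  rw [Finset.sum_pair (by omega), T_fract η x, T_fract η x, ← hu]
  have h1 := T_ge h0 (u - j * η)
  have h2 := T_ge h0 (u - (j + 1 : ℕ) * η)
  rw [abs_of_nonneg (by linarith)] at h1
  rw [abs_of_nonpos (by push_cast; linarith)] at h2
  push_cast at h1 h2 ⊢
  have h3 : (u - j * η) / η + (-(u - (j + 1) * η)) / η = 1 := by
    field_simp
    ring
  linarith

theorem sum_hat_le (J : Finset ℕ) {v : ℝ} (hv : 0 ≤ v) : ∑ j ∈ J, max 0 (1 - |v - j|) ≤ 1 := by
  set k := ⌊v⌋₊ with hk
  have hk1 : (k : ℝ) ≤ v := Nat.floor_le hv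
  have hk2 : v < k + 1 := Nat.lt_floor_add_one v
  have h1 : ∑ j ∈ J, max 0 (1 - |v - j|) ≤ ∑ j ∈ J ∪ {k, k + 1}, max 0 (1 - |v - (j : ℝ)|) :=
    Finset.sum_le_sum_of_subset_of_nonneg Finset.subset_union_left (fun _ _ _ => le_max_left _ _)
  have h2 : ∑ j ∈ ({k, k + 1} : Finset ℕ), max 0 (1 - |v - (j : ℝ)|)
      = ∑ j ∈ J ∪ {k, k + 1}, max 0 (1 - |v - (j : ℝ)|) := by
    refine Finset.sum_subset Finset.subset_union_right fun j _ hj => ?_
    simp only [Finset.mem_insert, Finset.mem_singleton, not_or] at hj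
    rw [max_eq_left]
    rcases lt_or_gt_of_ne hj.1 with h | h
    · have : (j : ℝ) + 1 ≤ k := by exact_mod_cast h
      have : |v - j| = v - j := abs_of_nonneg (by linarith)
      linarith
    · have h3 : k + 2 ≤ j := by omega
      have : (k : ℝ) + 2 ≤ j := by exact_mod_cast h3
      have : |v - j| = -(v - j) := abs_of_nonpos (by linarith)
      linarith
  refine h1.trans (h2.symm.le.trans ?_)
  rw [Finset.sum_pair (by omega), abs_of_nonneg (by linarith), abs_of_nonpos (by push_cast; linarith),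
    max_eq_right (by linarith), max_eq_right (by push_cast; linarith)]
  push_cast; linarith

theorem T_le_hat {η : ℝ} (h0 : 0 < η) {w : ℝ} (h1 : w ≤ 1 - η) (h2 : -(1 - η) ≤ w) :
    T η w ≤ max 0 (1 - |w| / η) := by
  unfold T
  refine max_le (le_max_left _ _) ?_
  rcases le_or_gt η (min (Int.fract w) (1 - Int.fract w)) with h | h
  · refine le_trans ?_ (le_max_left _ _)
    rw [sub_nonpos, one_le_div h0]; exact h
  · refine le_trans ?_ (le_max_right _ _)
    have : |w| ≤ min (Int.fract w) (1 - Int.fract w) := by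
      rcases le_total 0 w with hw | hw
      · have e : Int.fract w = w := Int.fract_eq_self.2 ⟨hw, by linarith⟩
        rw [e] at h ⊢
        rw [abs_of_nonneg hw]
        refine le_min le_rfl ?_
        rcases min_lt_iff.1 h with h3 | h3
        · linarith
        · linarith
      · rcases hw.eq_or_lt with rfl | hw'
        · simp
        have e : Int.fract w = w + 1 := by
          rw [show w = (w + 1) + ((-1 : ℤ) : ℝ) by push_cast; ring, Int.fract_add_intCast,
            Int.fract_eq_self.2 ⟨by linarith, by linarith⟩]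
          push_cast; ring
        rw [e] at h ⊢
        rw [abs_of_nonpos hw]
        refine le_min ?_ (by linarith)
        rcases min_lt_iff.1 h with h3 | h3
        · linarith
        · linarith
    have := div_le_div_of_nonneg_right this h0.le
    linarith

theorem sum_T_le {η : ℝ} (h0 : 0 < η) {M : ℕ} (hM : 1 ≤ M) (hδ : M * η < 1) (x : ℝ) :
    ∑ j ∈ Ico 1 M, T η (x - j * η) ≤ if Int.fract x ≤ M * η then 1 else 0 := by
  set u := Int.fract x with hu
  have hu0 : 0 ≤ u := Int.fract_nonneg x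
  have hu1 : u < 1 := Int.fract_lt_one x
  have key : ∀ j ∈ Ico 1 M, T η (x - j * η) ≤ max 0 (1 - |u / η - j|) := by
    intro j hj
    rw [Finset.mem_Ico] at hj
    rw [T_fract, ← hu]
    have hj1 : (1 : ℝ) ≤ j := by exact_mod_cast hj.1
    have hj2 : (j : ℝ) + 1 ≤ M := by exact_mod_cast hj.2
    refine (T_le_hat h0 (by nlinarith) (by nlinarith)).trans (le_of_eq ?_)
    congr 2
    rw [← abs_of_pos h0, ← abs_div, abs_of_pos h0]
    congr 1
    field_simp
  refine (Finset.sum_le_sum key).trans ?_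
  split_ifs with h
  · exact sum_hat_le _ (by positivity)
  · push Not at h
    refine (Finset.sum_eq_zero fun j hj => ?_).le
    rw [Finset.mem_Ico] at hj
    have hj2 : (j : ℝ) + 1 ≤ M := by exact_mod_cast hj.2
    have h3 : (M : ℝ) < u / η := by rwa [lt_div_iff₀ h0]
    rw [max_eq_left]
    rw [abs_of_nonneg (by linarith)]
    linarith

/-- Upper bound for the number of small fractional parts. -/
theorem count_upper {ι : Type*} (S : Finset ι) (x : ι → ℝ) {η E : ℝ} {M : ℕ} (h0 : 0 < η)
    (hM : 1 ≤ M) (hE : ∀ τ, |∑ i ∈ S, T η (x i - τ) - η * S.card| ≤ E) :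
    ((S.filter (fun i => Int.fract (x i) ≤ M * η)).card : ℝ) ≤ (M + 1) * (η * S.card + E) := by
  calc ((S.filter (fun i => Int.fract (x i) ≤ M * η)).card : ℝ)
      = ∑ i ∈ S.filter (fun i => Int.fract (x i) ≤ M * η), (1 : ℝ) := by simp
    _ ≤ ∑ i ∈ S.filter (fun i => Int.fract (x i) ≤ M * η), ∑ j ∈ range (M + 1), T η (x i - j * η) :=
        Finset.sum_le_sum fun i hi => one_le_sum_T h0 hM (Finset.mem_filter.1 hi).2
    _ ≤ ∑ i ∈ S, ∑ j ∈ range (M + 1), T η (x i - j * η) :=
        Finset.sum_le_sum_of_subset_of_nonneg (Finset.filter_subset _ _)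
          (fun _ _ _ => Finset.sum_nonneg fun _ _ => T_nonneg _ _)
    _ = ∑ j ∈ range (M + 1), ∑ i ∈ S, T η (x i - j * η) := Finset.sum_comm
    _ ≤ ∑ j ∈ range (M + 1), (η * S.card + E) := by
        refine Finset.sum_le_sum fun j _ => ?_
        have := (abs_le.1 (hE (j * η))).2
        linarith
    _ = _ := by rw [Finset.sum_const, Finset.card_range, nsmul_eq_mul]; push_cast; ring

/-- Lower bound for the number of small fractional parts. -/
theorem count_lower {ι : Type*} (S : Finset ι) (x : ι → ℝ) {η E : ℝ} {M : ℕ} (h0 : 0 < η)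
    (hM : 1 ≤ M) (hδ : M * η < 1) (hE : ∀ τ, |∑ i ∈ S, T η (x i - τ) - η * S.card| ≤ E) :
    (M - 1) * (η * S.card - E) ≤ ((S.filter (fun i => Int.fract (x i) ≤ M * η)).card : ℝ) := by
  calc (M - 1) * (η * S.card - E) = ∑ j ∈ Ico 1 M, (η * S.card - E) := by
        rw [Finset.sum_const, Nat.card_Ico, nsmul_eq_mul, Nat.cast_sub hM]; push_cast; ring
    _ ≤ ∑ j ∈ Ico 1 M, ∑ i ∈ S, T η (x i - j * η) := by
        refine Finset.sum_le_sum fun j _ => ?_
        have := (abs_le.1 (hE (j * η))).1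
        linarith
    _ = ∑ i ∈ S, ∑ j ∈ Ico 1 M, T η (x i - j * η) := Finset.sum_comm
    _ ≤ ∑ i ∈ S, (if Int.fract (x i) ≤ M * η then (1 : ℝ) else 0) :=
        Finset.sum_le_sum fun i _ => sum_T_le h0 hM hδ (x i)
    _ = _ := by rw [Finset.sum_ite]; simp

end Pool.Agent.PGap
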