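import Pool.Agent.PGap.ExpS
import Pool.Agent.PGap.Count

open Finset Real Filter

namespace Pool.Agent.PGap

open Pool.Agent.ANT

/-- A bound for the exponential sums of `x`. -/
def ExpBd (x : ℕ → ℝ) (K₁ K₂ b₁ b₂ p₁ p₂ : ℝ) : Prop :=
  ∀ A B h : ℕ, 1 ≤ A → A ≤ B → B ≤ 4 * A → 1 ≤ h →
    ‖∑ y ∈ Ioc A B, ee (h * x y)‖ ≤ K₁ * (A : ℝ) ^ b₁ * (h : ℝ) ^ p₁ + K₂ * (A : ℝ) ^ b₂ * (h : ℝ) ^ p₂

theorem ExpBd.neg {x : ℕ → ℝ} {K₁ K₂ b₁ b₂ p₁ p₂ : ℝ} (h : ExpBd x K₁ K₂ b₁ b₂ p₁ p₂) :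
    ExpBd (fun y => -x y) K₁ K₂ b₁ b₂ p₁ p₂ := by
  intro A B n hA hAB hB hn
  have h1 := h A B n hA hAB hB hn
  have e : ∑ y ∈ Ioc A B, ee (n * -x y) = (starRingEnd ℂ) (∑ y ∈ Ioc A B, ee (n * x y)) := by
    rw [map_sum]
    refine Finset.sum_congr rfl fun y _ => ?_
    rw [conj_ee]
    congr 1; ring
  rw [e, Complex.norm_conj]
  exact h1

theorem expBd_f3 : ExpBd (fun y => f3 y) 240 0 (3 / 4) 0 (1 / 2) 0 := by
  intro A B h hA hAB hB hh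
  have := exp_sum_f3 hA hAB hB hh
  simpa using this

theorem tendsto_pow_neg {e C : ℝ} (he : e < 1) :
    Tendsto (fun A : ℕ => C * (A : ℝ) ^ (e - 1)) atTop (nhds 0) := by
  have h := (tendsto_rpow_neg_atTop (show 0 < 1 - e by linarith)).comp tendsto_natCast_atTop_atTop
  have h2 := h.const_mul C
  rw [mul_zero] at h2
  refine h2.congr fun A => ?_
  simp only [Function.comp_apply]
  congr 2; ring

/-- Asymptotic number of small fractional parts in a block. -/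
theorem block {x : ℕ → ℝ} {K₁ K₂ b₁ b₂ p₁ p₂ : ℝ} (hx : ExpBd x K₁ K₂ b₁ b₂ p₁ p₂)
    (hK₁ : 0 ≤ K₁) (hK₂ : 0 ≤ K₂) {γ s₁ s₂ : ℝ} (hγ : 0 ≤ γ) (hs₁ : 0 ≤ s₁) (hs₁' : s₁ ≤ 2)
    (hs₂ : 0 ≤ s₂) (hs₂' : s₂ ≤ 2) (hc₁ : s₁ + p₁ < 1) (hc₂ : s₂ + p₂ < 1)
    (hd₁ : b₁ + γ * (2 - s₁) < 1) (hd₂ : b₂ + γ * (2 - s₂) < 1)
    {κ c ε : ℝ} (hκ : 0 < κ) (hc : 0 < c) (hε : 0 < ε) (hε1 : ε ≤ 1) :
    ∀ᶠ A : ℕ in atTop, ∀ B : ℕ, κ * A ≤ (B : ℝ) - A → B ≤ 4 * A → ∀ δ : ℝ, c * (A : ℝ) ^ (-γ) ≤ δ →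
      δ < 1 → |(((Ioc A B).filter (fun y => Int.fract (x y) ≤ δ)).card : ℝ) - δ * ((B : ℝ) - A)| ≤
        ε * (δ * ((B : ℝ) - A)) := by
  obtain ⟨M, hM⟩ := exists_nat_gt (4 / ε)
  have hM0 : (0 : ℝ) < M := lt_trans (by positivity) hM
  have hM4 : (4 : ℝ) < M := by
    refine lt_of_le_of_lt ?_ hM
    rw [le_div_iff₀ hε]; nlinarith
  have hM1 : 1 ≤ M := by
    have : (1 : ℝ) ≤ M := by linarith
    exact_mod_cast this
  have hMε : 1 / (M : ℝ) ≤ ε / 4 := by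
    rw [div_lt_iff₀ hε] at hM
    rw [div_le_iff₀ hM0]; nlinarith
  set Z₁ : ℝ := 2 * (∑' n : ℕ, (n : ℝ) ^ (s₁ + p₁ - 2)) with hZ₁
  set Z₂ : ℝ := 2 * (∑' n : ℕ, (n : ℝ) ^ (s₂ + p₂ - 2)) with hZ₂
  have hZ₁0 : 0 ≤ Z₁ := mul_nonneg (by norm_num) (tsum_nonneg fun n => by positivity)
  have hZ₂0 : 0 ≤ Z₂ := mul_nonneg (by norm_num) (tsum_nonneg fun n => by positivity)
  have t₁ := (tendsto_pow_neg (C := Z₁ * K₁ * (c / M) ^ (s₁ - 2)) hd₁).eventually_lt_const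
    (show (0 : ℝ) < ε * κ / 8 by positivity)
  have t₂ := (tendsto_pow_neg (C := Z₂ * K₂ * (c / M) ^ (s₂ - 2)) hd₂).eventually_lt_const
    (show (0 : ℝ) < ε * κ / 8 by positivity)
  filter_upwards [t₁, t₂, eventually_ge_atTop 1] with A ht₁ ht₂ hA B hB1 hB2 δ hδ hδ1
  have hA0 : (0 : ℝ) < A := by exact_mod_cast hA
  have hAB' : (A : ℝ) ≤ B := by nlinarith
  have hAB : A ≤ B := by exact_mod_cast hAB'
  have hδ0 : 0 < δ := lt_of_lt_of_le (by positivity) hδ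
  set η : ℝ := δ / M with hη
  have hη0 : 0 < η := by positivity
  have hηM : (M : ℝ) * η = δ := by rw [hη]; field_simp
  have hη1 : η ≤ 1 / 2 := by
    rw [hη, div_le_iff₀ hM0]; nlinarith
  have hcard : ((Ioc A B).card : ℝ) = (B : ℝ) - A := by rw [Nat.card_Ioc, Nat.cast_sub hAB]
  have hηl : c / M * (A : ℝ) ^ (-γ) ≤ η := by
    rw [hη, div_mul_eq_mul_div]
    exact div_le_div_of_nonneg_right hδ hM0.le
  -- the error term
  have herr : ∀ {Z K b s : ℝ}, 0 ≤ Z → 0 ≤ K → s ≤ 2 →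
      Z * K * (c / M) ^ (s - 2) * (A : ℝ) ^ (b + γ * (2 - s) - 1) < ε * κ / 8 →
      Z * (K * (A : ℝ) ^ b) * η ^ (s - 1) ≤ ε / 8 * (η * ((B : ℝ) - A)) := by
    intro Z K b s hZ hK hs2 ht
    have h1 : η ^ (s - 2) ≤ (c / M) ^ (s - 2) * (A : ℝ) ^ (γ * (2 - s)) := by
      calc η ^ (s - 2) ≤ (c / M * (A : ℝ) ^ (-γ)) ^ (s - 2) :=
            Real.rpow_le_rpow_of_nonpos (by positivity) hηl (by linarith)
        _ = (c / M) ^ (s - 2) * (A : ℝ) ^ (γ * (2 - s)) := by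
            rw [Real.mul_rpow (by positivity) (by positivity), ← Real.rpow_mul hA0.le]
            congr 2; ring
    have h2 : η ^ (s - 1) = η ^ (s - 2) * η := by
      rw [← Real.rpow_add_one hη0.ne']; congr 1; ring
    have h3 : (A : ℝ) ^ b * (A : ℝ) ^ (γ * (2 - s)) = (A : ℝ) ^ (b + γ * (2 - s) - 1) * A := by
      rw [← Real.rpow_add hA0, ← Real.rpow_add_one hA0.ne']; congr 1; ring
    rw [h2]
    calc Z * (K * (A : ℝ) ^ b) * (η ^ (s - 2) * η)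
        ≤ Z * (K * (A : ℝ) ^ b) * (((c / M) ^ (s - 2) * (A : ℝ) ^ (γ * (2 - s))) * η) := by gcongr
      _ = Z * K * (c / M) ^ (s - 2) * ((A : ℝ) ^ b * (A : ℝ) ^ (γ * (2 - s))) * η := by ring
      _ = (Z * K * (c / M) ^ (s - 2) * (A : ℝ) ^ (b + γ * (2 - s) - 1)) * (A * η) := by rw [h3]; ring
      _ ≤ ε * κ / 8 * (A * η) := mul_le_mul_of_nonneg_right ht.le (by positivity)
      _ = ε / 8 * (η * (κ * A)) := by ring
      _ ≤ ε / 8 * (η * ((B : ℝ) - A)) := by gcongr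
  have e₁ := herr hZ₁0 hK₁ hs₁' ht₁
  have e₂ := herr hZ₂0 hK₂ hs₂' ht₂
  have hE : ∀ τ, |∑ i ∈ Ioc A B, T η (x i - τ) - η * (Ioc A B).card| ≤
      ε / 4 * (η * ((B : ℝ) - A)) := by
    intro τ
    have := T_sum_err (Ioc A B) x hη0 hη1 (K₁ := K₁ * (A : ℝ) ^ b₁) (K₂ := K₂ * (A : ℝ) ^ b₂)
      (by positivity) (by positivity) hs₁ hs₁' hs₂ hs₂' hc₁ hc₂
      (fun n hn => hx A B n hA hAB hB2 hn) τ
    refine this.trans ?_
    rw [← hZ₁, ← hZ₂]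
    linarith
  have hu := count_upper (Ioc A B) x hη0 hM1 hE
  have hl := count_lower (Ioc A B) x hη0 hM1 (by rw [hηM]; exact hδ1) hE
  rw [hηM, hcard] at hu hl
  set N : ℝ := (B : ℝ) - A with hN
  have hN0 : 0 ≤ N := by rw [hN]; linarith
  have hq : η * N = δ * N * (1 / M) := by rw [hη]; ring
  have hP : 0 ≤ δ * N := by positivity
  have hM' : (0 : ℝ) ≤ 1 / M := by positivity
  have hMM : (M : ℝ) * (1 / M) = 1 := by field_simp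
  rw [abs_le]
  constructor
  · have e : (M - 1) * (η * N - ε / 4 * (η * N)) = (δ * N) * ((1 - 1 / M) * (1 - ε / 4)) := by
      rw [hq]
      linear_combination (1 - ε / 4) * (δ * N) * hMM
    rw [e] at hl
    have : 1 - ε ≤ (1 - 1 / M) * (1 - ε / 4) := by nlinarith
    nlinarith
  · have e : (M + 1) * (η * N + ε / 4 * (η * N)) = (δ * N) * ((1 + 1 / M) * (1 + ε / 4)) := by
      rw [hq]
      linear_combination (1 + ε / 4) * (δ * N) * hMM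
    rw [e] at hu
    have : (1 + 1 / M) * (1 + ε / 4) ≤ 1 + ε := by nlinarith
    nlinarith

end Pool.Agent.PGap
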