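import Pool.Agent.SInt.SecD

open Finset Real

namespace Pool.Agent.PGap

open Pool.Agent.ANT

/-- `t ^ (3/2)` -/
noncomputable def f3 (t : ℝ) : ℝ := t * √t

theorem f3_hasDeriv {t : ℝ} (ht : 0 < t) : HasDerivAt f3 (3 / 2 * √t) t := by
  have h := (hasDerivAt_id t).mul (Real.hasDerivAt_sqrt ht.ne')
  have hs : 0 < √t := Real.sqrt_pos.2 ht
  have hss : √t * √t = t := Real.mul_self_sqrt ht.le
  have e : 1 * √t + id t * (1 / (2 * √t)) = 3 / 2 * √t := by
    simp only [id]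
    field_simp
    nlinarith
  rw [e] at h
  exact h

theorem f3_second {t : ℝ} (ht : 0 < t) :
    3 / 4 / √(t + 2) ≤ f3 (t + 2) - 2 * f3 (t + 1) + f3 t ∧
      f3 (t + 2) - 2 * f3 (t + 1) + f3 t ≤ 3 / 4 / √t := by
  have hd : ∀ x ∈ Set.Icc t (t + 1),
      HasDerivAt (fun s => f3 (s + 1) - f3 s) (3 / 2 * √(x + 1) - 3 / 2 * √x) x := by
    intro x hx
    have h1 : HasDerivAt (fun s => f3 (s + 1)) (3 / 2 * √(x + 1)) x := by
      have := (f3_hasDeriv (show 0 < x + 1 by linarith [hx.1])).comp_add_const x 1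
      simpa using this
    exact h1.sub (f3_hasDeriv (by linarith [hx.1]))
  obtain ⟨c, hc, h⟩ := exists_hasDerivAt_eq_slope (fun s => f3 (s + 1) - f3 s)
    (fun x => 3 / 2 * √(x + 1) - 3 / 2 * √x) (show t < t + 1 by linarith)
    (fun x hx => (hd x hx).continuousAt.continuousWithinAt)
    (fun x hx => hd x ⟨hx.1.le, hx.2.le⟩)
  have e : f3 (t + 2) - 2 * f3 (t + 1) + f3 t = 3 / 2 * √(c + 1) - 3 / 2 * √c := by
    rw [h]
    have : t + 1 + 1 = t + 2 := by ring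
    simp only [this]
    rw [show t + 1 - t = 1 by ring, div_one]
    ring
  rw [e]
  have hc0 : 0 < c := by linarith [hc.1]
  have a1 : 0 < √c := Real.sqrt_pos.2 hc0
  have a2 : 0 < √(c + 1) := Real.sqrt_pos.2 (by linarith)
  have b1 : √c * √c = c := Real.mul_self_sqrt hc0.le
  have b2 : √(c + 1) * √(c + 1) = c + 1 := Real.mul_self_sqrt (by linarith)
  have b3 : √c ≤ √(c + 1) := Real.sqrt_le_sqrt (by linarith)
  have e2 : √(c + 1) - √c = 1 / (√(c + 1) + √c) := by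
    rw [eq_div_iff (by positivity)]
    nlinarith
  have c1 : √(c + 1) ≤ √(t + 2) := Real.sqrt_le_sqrt (by linarith [hc.2])
  have c2 : √t ≤ √c := Real.sqrt_le_sqrt hc.1.le
  have c3 : 0 < √t := Real.sqrt_pos.2 ht
  have c4 : 0 < √(t + 2) := Real.sqrt_pos.2 (by linarith)
  have l1 : 1 / (2 * √(t + 2)) ≤ 1 / (√(c + 1) + √c) :=
    one_div_le_one_div_of_le (by positivity) (by linarith)
  have l2 : 1 / (√(c + 1) + √c) ≤ 1 / (2 * √t) :=
    one_div_le_one_div_of_le (by positivity) (by linarith)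
  have m1 : 3 / 4 / √(t + 2) = 3 / 2 * (1 / (2 * √(t + 2))) := by field_simp; norm_num
  have m2 : 3 / 4 / √t = 3 / 2 * (1 / (2 * √t)) := by field_simp; norm_num
  rw [m1, m2]
  constructor <;> linarith

/-- The exponential sum for `h y ^ (3/2)`. -/
theorem exp_sum_f3 {A B h : ℕ} (hA : 1 ≤ A) (hAB : A ≤ B) (hB : B ≤ 4 * A) (hh : 1 ≤ h) :
    ‖∑ y ∈ Ioc A B, ee (h * f3 y)‖ ≤ 240 * (A : ℝ) ^ (3 / 4 : ℝ) * (h : ℝ) ^ (1 / 2 : ℝ) := by
  have hA0 : (1 : ℝ) ≤ A := by exact_mod_cast hA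
  have hh0 : (1 : ℝ) ≤ h := by exact_mod_cast hh
  have hBr : (B : ℝ) ≤ 4 * A := by exact_mod_cast hB
  -- notation
  set a : ℝ := (A : ℝ) ^ (1 / 4 : ℝ) with ha
  set r : ℝ := (h : ℝ) ^ (1 / 2 : ℝ) with hr
  have ha1 : 1 ≤ a := Real.one_le_rpow hA0 (by norm_num)
  have hr1 : 1 ≤ r := Real.one_le_rpow hh0 (by norm_num)
  have ea : a ^ 4 = A := by
    rw [ha, ← Real.rpow_natCast, ← Real.rpow_mul (by linarith)]; norm_num
  have er : r ^ 2 = h := by
    rw [hr, ← Real.rpow_natCast, ← Real.rpow_mul (by linarith)]; norm_num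
  have ea3 : (A : ℝ) ^ (3 / 4 : ℝ) = a ^ 3 := by
    rw [ha, ← Real.rpow_natCast, ← Real.rpow_mul (by linarith)]; norm_num
  have esA : √(A : ℝ) = a ^ 2 := by
    rw [← ea, show a ^ 4 = (a ^ 2) ^ 2 by ring, Real.sqrt_sq (by positivity)]
  rw [ea3]
  have htriv : ‖∑ y ∈ Ioc A B, ee (h * f3 y)‖ ≤ 4 * a ^ 4 := by
    refine (norm_sum_le _ _).trans ?_
    simp only [norm_ee, Finset.sum_const, Nat.card_Ioc, nsmul_eq_mul, mul_one]
    rw [Nat.cast_sub hAB, ea]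
    linarith
  rcases lt_or_ge a r with hlt | hge
  · refine htriv.trans ?_
    have : a ^ 4 ≤ a ^ 3 * r := by
      have := mul_le_mul_of_nonneg_left hlt.le (show 0 ≤ a ^ 3 by positivity)
      nlinarith
    have : 0 ≤ a ^ 3 * r := by positivity
    nlinarith
  rcases hAB.eq_or_lt with rfl | hlt
  · rw [Finset.Ioc_self, Finset.sum_empty, norm_zero]
    positivity
  obtain ⟨n, hn⟩ : ∃ n, B = A + 1 + n := ⟨B - (A + 1), by omega⟩
  have hB0 : (1 : ℝ) ≤ B := by rw [hn]; push_cast; linarith [(Nat.cast_nonneg n : (0:ℝ) ≤ n)]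
  have esum : ∑ y ∈ Ioc A B, ee (h * f3 y) = ∑ j ∈ range (n + 1), ee (h * f3 ((A : ℝ) + 1 + j)) := by
    have h1 : Ioc A B = Ico (A + 1) (B + 1) := by
      ext i; simp only [Finset.mem_Ioc, Finset.mem_Ico]; omega
    rw [h1, Finset.sum_Ico_eq_sum_range, show B + 1 - (A + 1) = n + 1 by omega]
    refine Finset.sum_congr rfl fun j _ => ?_
    push_cast
    rfl
  rw [esum]
  have hsB : 0 < √(B : ℝ) := Real.sqrt_pos.2 (by linarith)
  have hsA : 0 < √(A : ℝ) := Real.sqrt_pos.2 (by linarith)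
  have hsBA : √(B : ℝ) ≤ 2 * √(A : ℝ) := by
    rw [show (2 : ℝ) * √(A : ℝ) = √(4 * A) by
      rw [Real.sqrt_mul (by norm_num), show (4 : ℝ) = 2 ^ 2 by norm_num, Real.sqrt_sq (by norm_num)]]
    exact Real.sqrt_le_sqrt hBr
  set lam : ℝ := h * (3 / 4 / √(B : ℝ)) with hlam
  have hlam0 : 0 < lam := by positivity
  have key := SInt.second_diff (fun j => h * f3 ((A : ℝ) + 1 + j)) n (lam := lam) (α := 2) hlam0
    (by norm_num) ?_ ?_
  · refine key.trans ?_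
    have hnr : (n : ℝ) ≤ B := by rw [hn]; push_cast; linarith
    have hsq : √(B : ℝ) * √(B : ℝ) = B := Real.mul_self_sqrt (by linarith)
    have h1 : (n : ℝ) * lam ≤ 3 / 4 * h * √(B : ℝ) := by
      calc (n : ℝ) * lam ≤ B * lam := mul_le_mul_of_nonneg_right hnr hlam0.le
        _ = (√(B : ℝ) * √(B : ℝ)) * lam := by rw [hsq]
        _ = 3 / 4 * h * √(B : ℝ) := by rw [hlam]; field_simp
    have h2 : 2 * (n : ℝ) * lam + 1 ≤ 4 * r ^ 2 * a ^ 2 := by
      rw [er, ← esA]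
      have : (1 : ℝ) ≤ h * √(A : ℝ) := by
        have : (1 : ℝ) ≤ √(A : ℝ) := by rw [esA]; nlinarith
        nlinarith
      nlinarith
    have h3 : 1 / √lam ≤ 2 * a / r := by
      rw [div_le_div_iff₀ (Real.sqrt_pos.2 hlam0) (by positivity), one_mul]
      have h4 : r ≤ √((2 * a) ^ 2 * lam) := by
        refine Real.le_sqrt_of_sq_le ?_
        rw [er, hlam]
        have h5 : √(B : ℝ) ≤ 2 * a ^ 2 := by rw [← esA]; exact hsBA
        have : (2 * a) ^ 2 * (h * (3 / 4 / √(B : ℝ))) = h * (3 * a ^ 2 / √(B : ℝ)) := by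
          ring
        rw [this]
        have h6 : 1 ≤ 3 * a ^ 2 / √(B : ℝ) := by
          rw [le_div_iff₀ hsB]; nlinarith
        nlinarith
      rwa [Real.sqrt_mul (by positivity), Real.sqrt_sq (by positivity)] at h4
    have h7 : 1 / √lam + 1 ≤ 3 * a / r := by
      have : 1 ≤ a / r := by rwa [le_div_iff₀ (by linarith), one_mul]
      have e : 3 * a / r = 2 * a / r + a / r := by ring
      linarith
    calc 20 * (2 * ↑n * lam + 1) * (1 / √lam + 1) ≤ 20 * (4 * r ^ 2 * a ^ 2) * (3 * a / r) := by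
          refine mul_le_mul (by linarith) h7 (by positivity) (by positivity)
      _ = 240 * a ^ 3 * r := by field_simp; ring
  · intro j hj
    have h1 := (f3_second (t := (A : ℝ) + 1 + j) (by positivity)).1
    have h2 : √((A : ℝ) + 1 + j + 2) ≤ √(B : ℝ) := by
      refine Real.sqrt_le_sqrt ?_
      rw [hn]
      have : (j : ℝ) + 2 ≤ n := by exact_mod_cast hj
      push_cast; linarith
    have h3 : 3 / 4 / √(B : ℝ) ≤ 3 / 4 / √((A : ℝ) + 1 + j + 2) :=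
      div_le_div_of_nonneg_left (by norm_num) (Real.sqrt_pos.2 (by positivity)) h2
    have e : h * f3 ((A : ℝ) + 1 + ((j + 2 : ℕ) : ℝ)) - 2 * (h * f3 ((A : ℝ) + 1 + ((j + 1 : ℕ) : ℝ)))
        + h * f3 ((A : ℝ) + 1 + j) = h * (f3 ((A : ℝ) + 1 + j + 2) - 2 * f3 ((A : ℝ) + 1 + j + 1)
          + f3 ((A : ℝ) + 1 + j)) := by push_cast; ring_nf
    rw [e, hlam]
    exact mul_le_mul_of_nonneg_left (h3.trans h1) (by linarith)
  · intro j hj
    have h1 := (f3_second (t := (A : ℝ) + 1 + j) (by positivity)).2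
    have h2 : √(A : ℝ) ≤ √((A : ℝ) + 1 + j) := Real.sqrt_le_sqrt (by
      have : (0 : ℝ) ≤ j := Nat.cast_nonneg j
      linarith)
    have h3 : 3 / 4 / √((A : ℝ) + 1 + j) ≤ 3 / 4 / √(A : ℝ) :=
      div_le_div_of_nonneg_left (by norm_num) hsA h2
    have h4 : 3 / 4 / √(A : ℝ) ≤ 2 * (3 / 4 / √(B : ℝ)) := by
      rw [div_le_iff₀ hsA]
      rw [show 2 * (3 / 4 / √(B : ℝ)) * √(A : ℝ) = 3 / 4 * (2 * √(A : ℝ) / √(B : ℝ)) by ring]
      have : 1 ≤ 2 * √(A : ℝ) / √(B : ℝ) := by rwa [le_div_iff₀ hsB, one_mul]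
      linarith
    have e : h * f3 ((A : ℝ) + 1 + ((j + 2 : ℕ) : ℝ)) - 2 * (h * f3 ((A : ℝ) + 1 + ((j + 1 : ℕ) : ℝ)))
        + h * f3 ((A : ℝ) + 1 + j) = h * (f3 ((A : ℝ) + 1 + j + 2) - 2 * f3 ((A : ℝ) + 1 + j + 1)
          + f3 ((A : ℝ) + 1 + j)) := by push_cast; ring_nf
    rw [e, hlam]
    calc _ ≤ (h : ℝ) * (2 * (3 / 4 / √(B : ℝ))) :=
          mul_le_mul_of_nonneg_left (h1.trans (h3.trans h4)) (by linarith)
      _ = _ := by ring

end Pool.Agent.PGap
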