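import Mathlib

open Finset Real Filter

namespace Pool.Agent.PGap

/-- Perfect powers `m ^ k`, `m, k ≥ 2`. -/
def PP (x : ℕ) : Prop := ∃ m k : ℕ, 2 ≤ m ∧ 2 ≤ k ∧ m ^ k = x

/-- Perfect powers which are neither squares nor cubes. -/
def Oth (x : ℕ) : Prop := PP x ∧ (¬ ∃ u, u ^ 2 = x) ∧ ¬ ∃ y, y ^ 3 = x

open Classical in
/-- The set of the other powers up to `X`. -/
noncomputable def OthS (X : ℕ) : Finset ℕ := (range (X + 1)).filter Oth

theorem PP_sq {u : ℕ} (hu : 2 ≤ u) : PP (u ^ 2) := ⟨u, 2, hu, le_rfl, rfl⟩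

theorem PP_cube {u : ℕ} (hu : 2 ≤ u) : PP (u ^ 3) := ⟨u, 3, hu, by norm_num, rfl⟩

theorem PP_infinite : {x | PP x}.Infinite := by
  refine Set.infinite_of_injective_forall_mem (f := fun n : ℕ => (n + 2) ^ 2) ?_ ?_
  · intro a b h
    have := Nat.pow_left_injective (n := 2) (by norm_num) h
    omega
  · intro n
    exact PP_sq (by omega)

theorem Oth_exp {x : ℕ} (h : Oth x) : ∃ m k : ℕ, 2 ≤ m ∧ 5 ≤ k ∧ m ^ k = x := by
  obtain ⟨⟨m, k, hm, hk, rfl⟩, h2, h3⟩ := h
  refine ⟨m, k, hm, ?_, rfl⟩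
  by_contra hlt
  push Not at hlt
  interval_cases k
  · exact h2 ⟨m, rfl⟩
  · exact h3 ⟨m, rfl⟩
  · exact h2 ⟨m ^ 2, by ring⟩

theorem OthS_card (X r : ℕ) (hr : X < r ^ 5) : (OthS X).card ≤ r * (Nat.log 2 X + 1) := by
  classical
  have hsub : OthS X ⊆ ((range r) ×ˢ (range (Nat.log 2 X + 1))).image (fun p => p.1 ^ p.2) := by
    intro x hx
    unfold OthS at hx
    rw [Finset.mem_filter, Finset.mem_range] at hx
    obtain ⟨m, k, hm, hk, hmk⟩ := Oth_exp hx.2
    have hX : m ^ k ≤ X := by omega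
    rw [Finset.mem_image]
    refine ⟨(m, k), ?_, hmk⟩
    rw [Finset.mem_product, Finset.mem_range, Finset.mem_range]
    constructor
    · by_contra hle
      push Not at hle
      have : r ^ 5 ≤ m ^ k := (Nat.pow_le_pow_left hle 5).trans (Nat.pow_le_pow_right (by omega) hk)
      omega
    · have h1 : 2 ^ k ≤ X := (Nat.pow_le_pow_left hm k).trans hX
      have h2 : X ≠ 0 := by
        have : 0 < 2 ^ k := by positivity
        omega
      have := (Nat.le_log_iff_pow_le (by norm_num) h2).2 h1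
      simp only
      omega
  calc (OthS X).card ≤ (((range r) ×ˢ (range (Nat.log 2 X + 1))).image (fun p => p.1 ^ p.2)).card :=
        Finset.card_le_card hsub
    _ ≤ ((range r) ×ˢ (range (Nat.log 2 X + 1))).card := Finset.card_image_le
    _ = r * (Nat.log 2 X + 1) := by rw [Finset.card_product, Finset.card_range, Finset.card_range]

theorem OthS_bound : ∃ C : ℝ, 0 < C ∧ ∀ X : ℕ, 1 ≤ X → ((OthS X).card : ℝ) ≤ C * (X : ℝ) ^ (1 / 4 : ℝ) := by
  refine ⟨100, by norm_num, fun X hX => ?_⟩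
  have hX0 : (1 : ℝ) ≤ X := by exact_mod_cast hX
  set t : ℝ := (X : ℝ) ^ (1 / 20 : ℝ) with ht
  have ht1 : 1 ≤ t := Real.one_le_rpow hX0 (by norm_num)
  have e4 : (X : ℝ) ^ (1 / 5 : ℝ) = t ^ 4 := by
    rw [ht, ← Real.rpow_natCast, ← Real.rpow_mul (by linarith)]; norm_num
  have e5 : (X : ℝ) ^ (1 / 4 : ℝ) = t ^ 5 := by
    rw [ht, ← Real.rpow_natCast, ← Real.rpow_mul (by linarith)]; norm_num
  set r : ℕ := ⌊(X : ℝ) ^ (1 / 5 : ℝ)⌋₊ + 1 with hr
  have h1 : X < r ^ 5 := by
    have h2 : (X : ℝ) ^ (1 / 5 : ℝ) < r := by rw [hr]; push_cast; exact Nat.lt_floor_add_one _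
    have h3 : ((X : ℝ) ^ (1 / 5 : ℝ)) ^ 5 < (r : ℝ) ^ 5 := pow_lt_pow_left₀ h2 (by positivity) (by norm_num)
    rw [← Real.rpow_natCast, ← Real.rpow_mul (by linarith)] at h3
    norm_num at h3
    exact_mod_cast h3
  have h2 := OthS_card X r h1
  have h3 : ((OthS X).card : ℝ) ≤ r * (Nat.log 2 X + 1) := by exact_mod_cast h2
  have h4 : (r : ℝ) ≤ 2 * t ^ 4 := by
    rw [hr]; push_cast
    have := Nat.floor_le (show 0 ≤ (X : ℝ) ^ (1 / 5 : ℝ) by positivity)
    rw [e4] at this ⊢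
    have : 1 ≤ t ^ 4 := one_le_pow₀ ht1
    linarith
  have h5 : (Nat.log 2 X : ℝ) + 1 ≤ 50 * t := by
    have h6 : (Nat.log 2 X : ℝ) ≤ Real.log X / Real.log 2 := by
      have := Real.natLog_le_logb X 2
      rwa [Real.logb] at this
    have h7 : Real.log X ≤ (X : ℝ) ^ (1 / 20 : ℝ) / (1 / 20) :=
      Real.log_le_rpow_div (by linarith) (by norm_num)
    rw [← ht] at h7
    have h8 : 0.69 < Real.log 2 := by have := Real.log_two_gt_d9; linarith
    have h9 : Real.log X / Real.log 2 ≤ 20 * t / 0.69 := by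
      refine div_le_div₀ (by positivity) (by linarith) (by norm_num) h8.le
    have h10 : 20 * t / 0.69 ≤ 30 * t := by
      rw [div_le_iff₀ (by norm_num)]; nlinarith
    linarith
  calc ((OthS X).card : ℝ) ≤ r * (Nat.log 2 X + 1) := h3
    _ ≤ (2 * t ^ 4) * (50 * t) := mul_le_mul h4 h5 (by positivity) (by positivity)
    _ = 100 * t ^ 5 := by ring
    _ = _ := by rw [e5]

open Classical in
theorem count_eq_card (t : ℕ) : Nat.count PP t = ((range t).filter PP).card :=
  Nat.count_eq_card_filter_range _ _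

open Classical in
/-- The index of a perfect power is close to its square root. -/
theorem count_bound : ∃ C : ℝ, 0 < C ∧ ∀ t : ℕ, 1 ≤ t →
    |(Nat.count PP t : ℝ) - √t| ≤ C * (t : ℝ) ^ (1 / 3 : ℝ) := by
  obtain ⟨C, hC, hO⟩ := OthS_bound
  refine ⟨C + 5, by linarith, fun t ht => ?_⟩
  have ht0 : (1 : ℝ) ≤ t := by exact_mod_cast ht
  have hcr : 1 ≤ (t : ℝ) ^ (1 / 3 : ℝ) := Real.one_le_rpow ht0 (by norm_num)
  have hst : 1 ≤ √(t : ℝ) := Real.one_le_sqrt.2 ht0
  rw [abs_le]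
  constructor
  · -- lower bound
    have h1 : (range (Nat.sqrt (t - 1) - 1)).image (fun n => (n + 2) ^ 2) ⊆ (range t).filter PP := by
      intro x hx
      rw [Finset.mem_image] at hx
      obtain ⟨n, hn, rfl⟩ := hx
      rw [Finset.mem_range] at hn
      rw [Finset.mem_filter, Finset.mem_range]
      refine ⟨?_, PP_sq (by omega)⟩
      have h2 : n + 2 ≤ Nat.sqrt (t - 1) := by omega
      have h3 : (n + 2) ^ 2 ≤ t - 1 := by
        rw [pow_two]; exact Nat.le_sqrt.1 h2
      omega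
    have h2 : Nat.sqrt (t - 1) - 1 ≤ Nat.count PP t := by
      rw [count_eq_card]
      calc Nat.sqrt (t - 1) - 1 = ((range (Nat.sqrt (t - 1) - 1)).image (fun n => (n + 2) ^ 2)).card := by
            rw [Finset.card_image_of_injective, Finset.card_range]
            intro a b h
            have := Nat.pow_left_injective (n := 2) (by norm_num) h
            omega
        _ ≤ _ := Finset.card_le_card h1
    have h3 : √(t : ℝ) ≤ (Nat.sqrt (t - 1) : ℝ) + 1 := by
      rw [Real.sqrt_le_left (by positivity)]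
      have h4 := Nat.lt_succ_sqrt (t - 1)
      have h5 : t ≤ (Nat.sqrt (t - 1) + 1) ^ 2 := by
        rw [pow_two]; simp only [Nat.succ_eq_add_one] at h4; omega
      exact_mod_cast h5
    have h4 : (Nat.sqrt (t - 1) : ℝ) ≤ Nat.count PP t + 1 := by
      have : Nat.sqrt (t - 1) ≤ Nat.count PP t + 1 := by omega
      exact_mod_cast this
    have : 0 ≤ C * (t : ℝ) ^ (1 / 3 : ℝ) := by positivity
    nlinarith
  · -- upper bound
    have h1 : (range t).filter PP ⊆ (range (Nat.sqrt t + 1)).image (fun n => n ^ 2) ∪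
        ((range (⌊(t : ℝ) ^ (1 / 3 : ℝ)⌋₊ + 1)).image (fun n => n ^ 3) ∪ OthS t) := by
      intro x hx
      rw [Finset.mem_filter, Finset.mem_range] at hx
      rw [Finset.mem_union, Finset.mem_union]
      by_cases h2 : ∃ u, u ^ 2 = x
      · left
        obtain ⟨u, rfl⟩ := h2
        rw [Finset.mem_image]
        refine ⟨u, ?_, rfl⟩
        rw [Finset.mem_range]
        have : u ≤ Nat.sqrt t := Nat.le_sqrt.2 (by rw [← pow_two]; exact hx.1.le)
        omega
      by_cases h3 : ∃ y, y ^ 3 = x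
      · right; left
        obtain ⟨y, rfl⟩ := h3
        rw [Finset.mem_image]
        refine ⟨y, ?_, rfl⟩
        rw [Finset.mem_range]
        have h4 : (y : ℝ) ≤ (t : ℝ) ^ (1 / 3 : ℝ) := by
          have h5 : ((y : ℝ) ^ 3) ≤ t := by exact_mod_cast hx.1.le
          calc (y : ℝ) = ((y : ℝ) ^ 3) ^ (1 / 3 : ℝ) := by
                rw [← Real.rpow_natCast, ← Real.rpow_mul (by positivity)]; norm_num
            _ ≤ _ := Real.rpow_le_rpow (by positivity) h5 (by norm_num)
        have := Nat.le_floor h4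
        omega
      · right; right
        unfold OthS
        rw [Finset.mem_filter, Finset.mem_range]
        exact ⟨by omega, hx.2, h2, h3⟩
    have h2 : Nat.count PP t ≤ (Nat.sqrt t + 1) + ((⌊(t : ℝ) ^ (1 / 3 : ℝ)⌋₊ + 1) + (OthS t).card) := by
      rw [count_eq_card]
      refine (Finset.card_le_card h1).trans ((Finset.card_union_le _ _).trans ?_)
      refine add_le_add (Finset.card_image_le.trans (by rw [Finset.card_range])) ?_
      refine (Finset.card_union_le _ _).trans ?_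
      exact add_le_add (Finset.card_image_le.trans (by rw [Finset.card_range])) le_rfl
    have h3 : (Nat.count PP t : ℝ) ≤ ((Nat.sqrt t : ℝ) + 1) +
        (((⌊(t : ℝ) ^ (1 / 3 : ℝ)⌋₊ : ℝ) + 1) + (OthS t).card) := by exact_mod_cast h2
    have h4 : (Nat.sqrt t : ℝ) ≤ √(t : ℝ) := Real.nat_sqrt_le_real_sqrt
    have h5 : (⌊(t : ℝ) ^ (1 / 3 : ℝ)⌋₊ : ℝ) ≤ (t : ℝ) ^ (1 / 3 : ℝ) := Nat.floor_le (by positivity)
    have h6 := hO t ht
    have h7 : (t : ℝ) ^ (1 / 4 : ℝ) ≤ (t : ℝ) ^ (1 / 3 : ℝ) :=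
      Real.rpow_le_rpow_of_exponent_le ht0 (by norm_num)
    nlinarith

end Pool.Agent.PGap
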