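import Pool.Agent.PGap.PP

open Finset Real Filter

namespace Pool.Agent.PGap

/-- The `n`-th perfect power, starting with `b 0 = 4`. -/
noncomputable def b (n : ℕ) : ℕ := Nat.nth PP n

theorem b_PP (n : ℕ) : PP (b n) := Nat.nth_mem_of_infinite PP_infinite n

theorem b_mono : StrictMono b := Nat.nth_strictMono PP_infinite

open Classical in
theorem count_b (n : ℕ) : Nat.count PP (b n) = n := Nat.count_nth_of_infinite PP_infinite n

open Classical in
theorem b_count {t : ℕ} (h : PP t) : b (Nat.count PP t) = t := Nat.nth_count h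

theorem b_next {n t : ℕ} (hn : 1 ≤ n) (h : PP t) (hlt : b (n - 1) < t) : b n ≤ t := by
  classical
  rw [← b_count h] at hlt ⊢
  have := b_mono.lt_iff_lt.1 hlt
  exact b_mono.monotone (by omega)

theorem b_ge {n t : ℕ} (hn : 1 ≤ n) (h : PP t) (hlt : t < b n) : t ≤ b (n - 1) := by
  by_contra hc
  push Not at hc
  have := b_next hn h hc
  omega

theorem b_le (n : ℕ) : b n ≤ (n + 2) ^ 2 := by
  induction n with
  | zero =>
    have : PP 4 := ⟨2, 2, le_rfl, le_rfl, rfl⟩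
    classical
    have h1 := b_count this
    calc b 0 ≤ b (Nat.count PP 4) := b_mono.monotone (Nat.zero_le _)
      _ = 4 := h1
      _ ≤ _ := by norm_num
  | succ n ih =>
    have h1 : PP ((n + 1 + 2) ^ 2) := PP_sq (by omega)
    refine b_next (by omega) h1 ?_
    rw [Nat.add_sub_cancel]
    calc b n ≤ (n + 2) ^ 2 := ih
      _ < (n + 1 + 2) ^ 2 := Nat.pow_lt_pow_left (by omega) (by norm_num)

/-- The square root of the cube. -/
def sc (y : ℕ) : ℕ := Nat.sqrt (y ^ 3)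

theorem sc_sq_le (y : ℕ) : sc y ^ 2 ≤ y ^ 3 := by
  unfold sc; rw [pow_two]; exact Nat.sqrt_le _

theorem lt_sc_succ (y : ℕ) : y ^ 3 < (sc y + 1) ^ 2 := by
  unfold sc; rw [pow_two]; exact Nat.lt_succ_sqrt _

theorem sc_le_sq (y : ℕ) : sc y ≤ y ^ 2 := by
  have h := sc_sq_le y
  by_contra hc
  push Not at hc
  have h1 : (y ^ 2 + 1) ^ 2 ≤ sc y ^ 2 := Nat.pow_le_pow_left hc 2
  rcases Nat.eq_zero_or_pos y with rfl | hy
  · simp [sc] at hc
  · have : y ^ 3 ≤ y ^ 4 := Nat.pow_le_pow_right hy (by norm_num)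
    nlinarith

theorem sc_lt {z y : ℕ} (h : z < y) : sc z < sc y := by
  have h1 := sc_sq_le z
  have h2 := sc_le_sq z
  have h3 : (sc z + 1) ^ 2 ≤ (z + 1) ^ 3 := by nlinarith
  have h4 : (z + 1) ^ 3 ≤ y ^ 3 := Nat.pow_le_pow_left h 3
  have h5 : sc z + 1 ≤ sc y := by
    show sc z + 1 ≤ Nat.sqrt (y ^ 3)
    rw [Nat.le_sqrt, ← pow_two]
    omega
  omega

theorem sc_sq_lt {y : ℕ} (hy : ¬ ∃ u, u ^ 2 = y) : sc y ^ 2 < y ^ 3 := by
  refine lt_of_le_of_ne (sc_sq_le y) fun h => hy ?_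
  have h1 : y ^ 2 ∣ sc y ^ 2 := ⟨y, by rw [h]; ring⟩
  have h2 : y ∣ sc y := (Nat.pow_dvd_pow_iff (by norm_num)).1 h1
  obtain ⟨w, hw⟩ := h2
  rcases Nat.eq_zero_or_pos y with rfl | hy0
  · exact ⟨0, rfl⟩
  · refine ⟨w, ?_⟩
    rw [hw] at h
    have h3 : y ^ 2 * w ^ 2 = y ^ 2 * y := by rw [← mul_pow, h]; ring
    exact Nat.eq_of_mul_eq_mul_left (by positivity) h3

theorem cube_not_sq {y : ℕ} (hy : ¬ ∃ u, u ^ 2 = y) : ¬ ∃ u, u ^ 2 = y ^ 3 := by
  rintro ⟨u, hu⟩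
  have h1 := sc_sq_lt hy
  have h2 := lt_sc_succ y
  rw [← hu] at h1 h2
  have h3 : sc y < u := lt_of_pow_lt_pow_left₀ 2 (Nat.zero_le _) h1
  have h4 : u < sc y + 1 := lt_of_pow_lt_pow_left₀ 2 (Nat.zero_le _) h2
  omega

theorem sc_ge_two {y : ℕ} (hy : 2 ≤ y) : 2 ≤ sc y := by
  show 2 ≤ Nat.sqrt (y ^ 3)
  rw [Nat.le_sqrt]
  have : 2 ^ 3 ≤ y ^ 3 := Nat.pow_le_pow_left hy 3
  omega

theorem two_le_of_not_sq {y : ℕ} (hy : ¬ ∃ u, u ^ 2 = y) : 2 ≤ y := by
  by_contra h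
  push Not at h
  interval_cases y
  · exact hy ⟨0, rfl⟩
  · exact hy ⟨1, rfl⟩

/-- Two consecutive squares. -/
theorem both_sq {n u v : ℕ} (hn : 1 ≤ n) (h1 : u ^ 2 = b (n - 1)) (h2 : v ^ 2 = b n) : v = u + 1 := by
  have h3 : b (n - 1) < b n := b_mono (by omega)
  have h4 : u < v := lt_of_pow_lt_pow_left₀ 2 (Nat.zero_le _) (by omega)
  have h5 : 2 ≤ u := by
    by_contra hc
    have hP := b_PP (n - 1)
    obtain ⟨m, k, hm, hk, hmk⟩ := hP
    have : 2 ^ 2 ≤ m ^ k := (Nat.pow_le_pow_left hm 2).trans (Nat.pow_le_pow_right (by omega) hk)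
    have : u ≤ 1 := by omega
    have : u ^ 2 ≤ 1 ^ 2 := Nat.pow_le_pow_left this 2
    omega
  have h6 : b n ≤ (u + 1) ^ 2 := b_next hn (PP_sq (by omega)) (by rw [← h1]; exact Nat.pow_lt_pow_left (by omega) (by norm_num))
  have h7 : v ≤ u + 1 := (Nat.pow_le_pow_iff_left (n := 2) (by norm_num)).1 (by rw [h2]; exact h6)
  omega

/-- Two consecutive terms are not both cubes of non-squares. -/
theorem not_both_cubes {n y z : ℕ} (hn : 1 ≤ n) (h1 : y ^ 3 = b (n - 1)) (h2 : z ^ 3 = b n)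
    (hz : ¬ ∃ u, u ^ 2 = z) : False := by
  have h3 : b (n - 1) < b n := b_mono (by omega)
  have h4 : y < z := lt_of_pow_lt_pow_left₀ 3 (Nat.zero_le _) (by omega)
  have h5 := sc_lt h4
  have h6 := lt_sc_succ y
  have h7 : (sc y + 1) ^ 2 ≤ sc z ^ 2 := Nat.pow_le_pow_left h5 2
  have h8 := sc_sq_lt hz
  have h9 : PP (sc z ^ 2) := PP_sq (sc_ge_two (two_le_of_not_sq hz))
  have := b_next hn h9 (by omega)
  omega

theorem low_pair {n y u : ℕ} (hn : 1 ≤ n) (hy : ¬ ∃ w, w ^ 2 = y) (h1 : u ^ 2 = b (n - 1))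
    (h2 : y ^ 3 = b n) : u = sc y := by
  have h3 : b (n - 1) < b n := b_mono (by omega)
  have h8 := sc_sq_lt hy
  have h9 : PP (sc y ^ 2) := PP_sq (sc_ge_two (two_le_of_not_sq hy))
  have h10 := b_ge hn h9 (by omega)
  have h11 := lt_sc_succ y
  have h12 : sc y ≤ u := (Nat.pow_le_pow_iff_left (n := 2) (by norm_num)).1 (by omega)
  have h13 : u < sc y + 1 := lt_of_pow_lt_pow_left₀ 2 (Nat.zero_le _) (by omega)
  omega

theorem up_pair {n y v : ℕ} (hn : 1 ≤ n) (hy : ¬ ∃ w, w ^ 2 = y) (h1 : y ^ 3 = b (n - 1))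
    (h2 : v ^ 2 = b n) : v = sc y + 1 := by
  have h3 : b (n - 1) < b n := b_mono (by omega)
  have h8 := sc_sq_lt hy
  have h11 := lt_sc_succ y
  have h9 : PP ((sc y + 1) ^ 2) := PP_sq (by have := sc_ge_two (two_le_of_not_sq hy); omega)
  have h10 := b_next hn h9 (by omega)
  have h12 : v ≤ sc y + 1 := (Nat.pow_le_pow_iff_left (n := 2) (by norm_num)).1 (by omega)
  have h13 : sc y < v := lt_of_pow_lt_pow_left₀ 2 (Nat.zero_le _) (by omega)
  omega

/-- No other power between the two squares around `y ^ 3`. -/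
def Good (y : ℕ) : Prop := ∀ t, Oth t → Nat.sqrt t ≠ sc y

theorem between {y t : ℕ} (hy : ¬ ∃ w, w ^ 2 = y) (hg : Good y) (ht : PP t)
    (h1 : sc y ^ 2 < t) (h2 : t < (sc y + 1) ^ 2) : t = y ^ 3 := by
  have hs : Nat.sqrt t = sc y := by
    refine le_antisymm ?_ ?_
    · have : Nat.sqrt t < sc y + 1 := by
        rw [Nat.sqrt_lt, ← pow_two]; exact h2
      omega
    · rw [Nat.le_sqrt, ← pow_two]; exact h1.le
  by_cases h3 : ∃ u, u ^ 2 = t
  · obtain ⟨u, rfl⟩ := h3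
    have h4 : sc y < u := lt_of_pow_lt_pow_left₀ 2 (Nat.zero_le _) h1
    have h5 : u < sc y + 1 := lt_of_pow_lt_pow_left₀ 2 (Nat.zero_le _) h2
    omega
  by_cases h4 : ∃ z, z ^ 3 = t
  · obtain ⟨z, rfl⟩ := h4
    have h5 : sc z = sc y := hs
    rcases lt_trichotomy z y with h | h | h
    · have := sc_lt h; omega
    · rw [h]
    · have := sc_lt h; omega
  · exact absurd hs (hg t ⟨ht, h3, h4⟩)

open Classical in
theorem good_low {y : ℕ} (hy : ¬ ∃ w, w ^ 2 = y) (hg : Good y) :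
    1 ≤ Nat.count PP (y ^ 3) ∧ b (Nat.count PP (y ^ 3)) = y ^ 3 ∧
      b (Nat.count PP (y ^ 3) - 1) = sc y ^ 2 ∧ b (Nat.count PP (y ^ 3) + 1) = (sc y + 1) ^ 2 := by
  have hy2 := two_le_of_not_sq hy
  have h0 : b (Nat.count PP (y ^ 3)) = y ^ 3 := b_count (PP_cube hy2)
  have h8 := sc_sq_lt hy
  have h9 : PP (sc y ^ 2) := PP_sq (sc_ge_two hy2)
  have h11 := lt_sc_succ y
  have h10 : PP ((sc y + 1) ^ 2) := PP_sq (by have := sc_ge_two hy2; omega)
  have h1 : 1 ≤ Nat.count PP (y ^ 3) := by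
    have h2 : b (Nat.count PP (sc y ^ 2)) < b (Nat.count PP (y ^ 3)) := by rw [h0, b_count h9]; exact h8
    have := b_mono.lt_iff_lt.1 h2
    omega
  refine ⟨h1, h0, ?_, ?_⟩
  · have h3 : b (Nat.count PP (y ^ 3) - 1) < y ^ 3 := by
      conv_rhs => rw [← h0]
      exact b_mono (by omega)
    have h4 := b_ge h1 h9 (by rw [h0]; exact h8)
    rcases h4.eq_or_lt with h | h
    · exact h.symm
    · have := between hy hg (b_PP _) h (by omega)
      omega
  · have h3 : y ^ 3 < b (Nat.count PP (y ^ 3) + 1) := by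
      conv_lhs => rw [← h0]
      exact b_mono (by omega)
    have h4 : b (Nat.count PP (y ^ 3) + 1) ≤ (sc y + 1) ^ 2 :=
      b_next (by omega) h10 (by rw [Nat.add_sub_cancel, h0]; exact h11)
    rcases h4.eq_or_lt with h | h
    · exact h
    · have := between hy hg (b_PP _) (by omega) h
      omega

end Pool.Agent.PGap
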