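import Pool.Agent.PGap.PP2
import Pool.Agent.PGap.ExpS

open Finset Real Filter

namespace Pool.Agent.PGap

open Classical in
/-- The index of the cube of `y`. -/
noncomputable def idx (y : ℕ) : ℕ := Nat.count PP (y ^ 3)

theorem f3_eq (y : ℕ) : f3 (y : ℝ) = √(((y ^ 3 : ℕ)) : ℝ) := by
  unfold f3
  push_cast
  rw [show (y : ℝ) ^ 3 = (y : ℝ) ^ 2 * y by ring, Real.sqrt_mul (by positivity),
    Real.sqrt_sq (by positivity)]

theorem f3_sq (y : ℕ) : f3 (y : ℝ) ^ 2 = (y : ℝ) ^ 3 := by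
  rw [f3_eq, Real.sq_sqrt (by positivity)]; push_cast; ring

theorem f3_nonneg (y : ℕ) : 0 ≤ f3 (y : ℝ) := by rw [f3_eq]; positivity

theorem f3_pos {y : ℕ} (hy : 1 ≤ y) : 0 < f3 (y : ℝ) := by
  rw [f3_eq]
  have : 0 < y := hy
  positivity

theorem floor_f3 (y : ℕ) : ⌊f3 (y : ℝ)⌋ = (sc y : ℤ) := by
  rw [f3_eq]
  exact Real.floor_real_sqrt_eq_nat_sqrt

theorem fract_f3 (y : ℕ) : Int.fract (f3 (y : ℝ)) = f3 y - sc y := by
  rw [Int.fract, floor_f3]; push_cast; ring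

theorem low_eq (y : ℕ) : (y : ℝ) ^ 3 - (sc y : ℝ) ^ 2 = Int.fract (f3 (y : ℝ)) * (f3 y + sc y) := by
  rw [fract_f3, ← f3_sq]; ring

theorem fract_neg_f3 {y : ℕ} (hy : ¬ ∃ u, u ^ 2 = y) :
    Int.fract (-f3 (y : ℝ)) = (sc y : ℝ) + 1 - f3 y := by
  have h : Int.fract (f3 (y : ℝ)) ≠ 0 := by
    intro h
    rw [fract_f3, sub_eq_zero] at h
    have h1 := f3_sq y
    rw [h] at h1
    have h2 : sc y ^ 2 = y ^ 3 := by exact_mod_cast h1
    exact absurd h2 (sc_sq_lt hy).ne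
  rw [Int.fract_neg h, fract_f3]; ring

theorem up_eq {y : ℕ} (hy : ¬ ∃ u, u ^ 2 = y) :
    ((sc y : ℝ) + 1) ^ 2 - (y : ℝ) ^ 3 = Int.fract (-f3 (y : ℝ)) * (f3 y + (sc y + 1)) := by
  rw [fract_neg_f3 hy, ← f3_sq]; ring

theorem f3_rpow {y : ℕ} (θ : ℝ) : f3 (y : ℝ) ^ (θ - 1) = (y : ℝ) ^ (-(3 / 2 * (1 - θ))) := by
  have h : f3 (y : ℝ) = (y : ℝ) ^ (3 / 2 : ℝ) := by
    rcases Nat.eq_zero_or_pos y with rfl | hy
    · unfold f3; norm_num
    · have : (0 : ℝ) < y := by exact_mod_cast hy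
      unfold f3
      rw [Real.sqrt_eq_rpow, ← Real.rpow_one_add' this.le (by norm_num)]; norm_num
  rw [h, ← Real.rpow_mul (by positivity)]
  congr 1; ring

theorem tendsto_f3 : Tendsto (fun y : ℕ => f3 (y : ℝ)) atTop atTop := by
  refine tendsto_atTop_mono' atTop ?_ tendsto_natCast_atTop_atTop
  filter_upwards [eventually_ge_atTop 1] with y hy
  have : (1 : ℝ) ≤ y := by exact_mod_cast hy
  unfold f3
  have := Real.one_le_sqrt.2 this
  nlinarith

theorem tendsto_inv_f3 (c : ℝ) : Tendsto (fun y : ℕ => c / f3 (y : ℝ)) atTop (nhds 0) :=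
  Tendsto.div_atTop tendsto_const_nhds tendsto_f3

theorem tendsto_sc : Tendsto (fun y : ℕ => (sc y : ℝ) / f3 y) atTop (nhds 1) := by
  have h : Tendsto (fun y : ℕ => 1 - 1 / f3 (y : ℝ)) atTop (nhds 1) := by
    have := (tendsto_const_nhds (x := (1 : ℝ))).sub (tendsto_inv_f3 1)
    rwa [sub_zero] at this
  refine tendsto_of_tendsto_of_tendsto_of_le_of_le' h tendsto_const_nhds ?_ ?_
  · filter_upwards [eventually_ge_atTop 1] with y hy
    have h0 := f3_pos hy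
    rw [le_div_iff₀ h0, sub_mul, one_mul, div_mul_cancel₀ _ h0.ne']
    have := Int.fract_lt_one (f3 (y : ℝ))
    rw [fract_f3] at this
    linarith
  · filter_upwards [eventually_ge_atTop 1] with y hy
    have h0 := f3_pos hy
    rw [div_le_one h0]
    have := Int.fract_nonneg (f3 (y : ℝ))
    rw [fract_f3] at this
    linarith

theorem tendsto_idx : Tendsto (fun y : ℕ => (idx y : ℝ) / f3 y) atTop (nhds 1) := by
  obtain ⟨C, hC, h⟩ := count_bound
  have hs : Tendsto (fun y : ℕ => C / √(y : ℝ)) atTop (nhds 0) :=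
    Tendsto.div_atTop tendsto_const_nhds ((Real.tendsto_sqrt_atTop).comp tendsto_natCast_atTop_atTop)
  have h1 : Tendsto (fun y : ℕ => 1 - C / √(y : ℝ)) atTop (nhds 1) := by
    have := (tendsto_const_nhds (x := (1 : ℝ))).sub hs
    rwa [sub_zero] at this
  have h2 : Tendsto (fun y : ℕ => 1 + C / √(y : ℝ)) atTop (nhds 1) := by
    have := (tendsto_const_nhds (x := (1 : ℝ))).add hs
    rwa [add_zero] at this
  have key : ∀ᶠ y : ℕ in atTop, |(idx y : ℝ) / f3 y - 1| ≤ C / √(y : ℝ) := by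
    filter_upwards [eventually_ge_atTop 1] with y hy
    have h0 := f3_pos hy
    have hy0 : (0 : ℝ) < y := by exact_mod_cast hy
    have h3 := h (y ^ 3) (Nat.one_le_pow _ _ hy)
    rw [← f3_eq] at h3
    have h4 : (((y ^ 3 : ℕ) : ℝ)) ^ (1 / 3 : ℝ) = y := by
      push_cast
      rw [← Real.rpow_natCast, ← Real.rpow_mul hy0.le]; norm_num
    rw [h4] at h3
    have h5 : (idx y : ℝ) / f3 y - 1 = ((idx y : ℝ) - f3 y) / f3 y := by field_simp
    rw [h5, abs_div, abs_of_pos h0, div_le_div_iff₀ h0 (Real.sqrt_pos.2 hy0)]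
    have h6 : C * f3 (y : ℝ) = C * y * √(y : ℝ) := by unfold f3; ring
    rw [h6]
    exact mul_le_mul_of_nonneg_right h3 (Real.sqrt_nonneg _)
  refine tendsto_of_tendsto_of_tendsto_of_le_of_le' h1 h2 ?_ ?_
  · filter_upwards [key] with y hy
    have := (abs_le.1 hy).1
    linarith
  · filter_upwards [key] with y hy
    have := (abs_le.1 hy).2
    linarith

/-- comparison of the thresholds -/
theorem thr {g h : ℕ → ℝ} (hg0 : ∀ y, 0 ≤ g y) (hg : Tendsto (fun y : ℕ => g y / f3 y) atTop (nhds 1))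
    (hh : Tendsto (fun y : ℕ => h y / f3 y) atTop (nhds 1)) (θ : ℝ) {lam c : ℝ} :
    (lam / 2 < c → ∀ᶠ y : ℕ in atTop, lam * g y ^ θ ≤ c * (f3 (y : ℝ) ^ (θ - 1) * (f3 y + h y))) ∧
    (c < lam / 2 → ∀ᶠ y : ℕ in atTop, c * (f3 (y : ℝ) ^ (θ - 1) * (f3 y + h y)) ≤ lam * g y ^ θ) := by
  have l1 : Tendsto (fun y : ℕ => lam * (g y / f3 y) ^ θ) atTop (nhds (lam * 1 ^ θ)) :=
    (hg.rpow_const (Or.inl one_ne_zero)).const_mul lam
  have l2 : Tendsto (fun y : ℕ => c * (1 + h y / f3 y)) atTop (nhds (c * (1 + 1))) :=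
    ((tendsto_const_nhds (x := (1 : ℝ))).add hh).const_mul c
  rw [Real.one_rpow, mul_one] at l1
  have e : ∀ᶠ y : ℕ in atTop, lam * g y ^ θ = (lam * (g y / f3 y) ^ θ) * f3 (y : ℝ) ^ θ ∧
      c * (f3 (y : ℝ) ^ (θ - 1) * (f3 y + h y)) = (c * (1 + h y / f3 y)) * f3 (y : ℝ) ^ θ := by
    filter_upwards [eventually_ge_atTop 1] with y hy
    have h0 := f3_pos hy
    constructor
    · rw [Real.div_rpow (hg0 y) h0.le]; field_simp
    · rw [Real.rpow_sub_one h0.ne']; field_simp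
  constructor
  · intro hc
    have := l1.eventually_lt l2 (by linarith)
    filter_upwards [this, e, eventually_ge_atTop 1] with y h1 h2 hy
    have h0 := f3_pos hy
    rw [h2.1, h2.2]
    exact mul_le_mul_of_nonneg_right h1.le (by positivity)
  · intro hc
    have := l2.eventually_lt l1 (by linarith)
    filter_upwards [this, e, eventually_ge_atTop 1] with y h1 h2 hy
    have h0 := f3_pos hy
    rw [h2.1, h2.2]
    exact mul_le_mul_of_nonneg_right h1.le (by positivity)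

theorem low_a (θ : ℝ) {lam c : ℝ} (hc : lam / 2 < c) : ∀ᶠ y : ℕ in atTop,
    (y : ℝ) ^ 3 - (sc y : ℝ) ^ 2 ≤ lam * (idx y : ℝ) ^ θ →
      Int.fract (f3 (y : ℝ)) ≤ c * (y : ℝ) ^ (-(3 / 2 * (1 - θ))) := by
  filter_upwards [(thr (g := fun y => (idx y : ℝ)) (h := fun y => (sc y : ℝ))
    (fun _ => by positivity) tendsto_idx tendsto_sc θ (lam := lam) (c := c)).1 hc,
    eventually_ge_atTop 1] with y h1 hy h2
  have h0 := f3_pos hy
  rw [low_eq] at h2
  have h3 : 0 < f3 (y : ℝ) + sc y := by positivity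
  rw [← f3_rpow]
  have h4 := h2.trans h1
  rw [← mul_assoc] at h4
  exact le_of_mul_le_mul_right h4 h3

theorem low_b (θ : ℝ) {lam c : ℝ} (hc : c < lam / 2) : ∀ᶠ y : ℕ in atTop,
    Int.fract (f3 (y : ℝ)) ≤ c * (y : ℝ) ^ (-(3 / 2 * (1 - θ))) →
      (y : ℝ) ^ 3 - (sc y : ℝ) ^ 2 ≤ lam * (idx y : ℝ) ^ θ := by
  filter_upwards [(thr (g := fun y => (idx y : ℝ)) (h := fun y => (sc y : ℝ))
    (fun _ => by positivity) tendsto_idx tendsto_sc θ (lam := lam) (c := c)).2 hc,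
    eventually_ge_atTop 1] with y h1 hy h2
  have h0 := f3_pos hy
  rw [low_eq]
  have h3 : 0 < f3 (y : ℝ) + sc y := by positivity
  rw [← f3_rpow] at h2
  refine le_trans ?_ h1
  rw [← mul_assoc]
  exact mul_le_mul_of_nonneg_right h2 h3.le

theorem tendsto_succ {g : ℕ → ℝ} (hg : Tendsto (fun y : ℕ => g y / f3 y) atTop (nhds 1)) :
    Tendsto (fun y : ℕ => (g y + 1) / f3 y) atTop (nhds 1) := by
  have := hg.add (tendsto_inv_f3 1)
  rw [add_zero] at this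
  refine this.congr fun y => ?_
  rw [add_div]

theorem up_a (θ : ℝ) {lam c : ℝ} (hc : lam / 2 < c) : ∀ᶠ y : ℕ in atTop, (¬ ∃ u, u ^ 2 = y) →
    ((sc y : ℝ) + 1) ^ 2 - (y : ℝ) ^ 3 ≤ lam * ((idx y : ℝ) + 1) ^ θ →
      Int.fract (-f3 (y : ℝ)) ≤ c * (y : ℝ) ^ (-(3 / 2 * (1 - θ))) := by
  filter_upwards [(thr (g := fun y => (idx y : ℝ) + 1) (h := fun y => (sc y : ℝ) + 1)
    (fun _ => by positivity) (tendsto_succ tendsto_idx) (tendsto_succ tendsto_sc) θ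
    (lam := lam) (c := c)).1 hc, eventually_ge_atTop 1] with y h1 hy hsq h2
  have h0 := f3_pos hy
  rw [up_eq hsq] at h2
  have h3 : 0 < f3 (y : ℝ) + (sc y + 1) := by positivity
  rw [← f3_rpow]
  have h4 := h2.trans h1
  rw [← mul_assoc] at h4
  exact le_of_mul_le_mul_right h4 h3

theorem up_b (θ : ℝ) {lam c : ℝ} (hc : c < lam / 2) : ∀ᶠ y : ℕ in atTop, (¬ ∃ u, u ^ 2 = y) →
    Int.fract (-f3 (y : ℝ)) ≤ c * (y : ℝ) ^ (-(3 / 2 * (1 - θ))) →
      ((sc y : ℝ) + 1) ^ 2 - (y : ℝ) ^ 3 ≤ lam * ((idx y : ℝ) + 1) ^ θ := by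
  filter_upwards [(thr (g := fun y => (idx y : ℝ) + 1) (h := fun y => (sc y : ℝ) + 1)
    (fun _ => by positivity) (tendsto_succ tendsto_idx) (tendsto_succ tendsto_sc) θ
    (lam := lam) (c := c)).2 hc, eventually_ge_atTop 1] with y h1 hy hsq h2
  have h0 := f3_pos hy
  rw [up_eq hsq]
  have h3 : 0 < f3 (y : ℝ) + (sc y + 1) := by positivity
  rw [← f3_rpow] at h2
  refine le_trans ?_ h1
  rw [← mul_assoc]
  exact mul_le_mul_of_nonneg_right h2 h3.le

end Pool.Agent.PGap
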