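import Mathlib

open Finset Real

namespace Pool.Agent.PGap

/-- The triangle function of period one and half-width `η`. -/
noncomputable def T (η x : ℝ) : ℝ := max 0 (1 - min (Int.fract x) (1 - Int.fract x) / η)

theorem T_nonneg (η x : ℝ) : 0 ≤ T η x := le_max_left _ _

theorem cos_nat_fract (n : ℕ) (x : ℝ) :
    Real.cos (2 * π * n * Int.fract x) = Real.cos (2 * π * n * x) := by
  have e : 2 * π * n * Int.fract x = 2 * π * n * x - ((n * ⌊x⌋ : ℤ) : ℝ) * (2 * π) := by
    rw [Int.fract]; push_cast; ring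
  rw [e, Real.cos_sub_int_mul_two_pi]

theorem hasSum_B (x : ℝ) :
    HasSum (fun n : ℕ => 1 / (n : ℝ) ^ 2 * Real.cos (2 * π * n * x))
      (π ^ 2 * (Int.fract x ^ 2 - Int.fract x + 1 / 6)) := by
  have h := hasSum_one_div_nat_pow_mul_cos (k := 1) one_ne_zero (x := Int.fract x)
    ⟨Int.fract_nonneg x, (Int.fract_lt_one x).le⟩
  have e1 : (-1 : ℝ) ^ (1 + 1) * (2 * π) ^ (2 * 1) / 2 / ((2 * 1).factorial : ℝ) *
      (Polynomial.map (algebraMap ℚ ℝ) (Polynomial.bernoulli (2 * 1))).eval (Int.fract x)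
      = π ^ 2 * (Int.fract x ^ 2 - Int.fract x + 1 / 6) := by
    have hb := bernoulliFun_two (Int.fract x)
    unfold bernoulliFun at hb
    have h2 : ((2 * 1).factorial : ℝ) = 2 := by norm_num [Nat.factorial]
    rw [h2, mul_one, hb]
    ring
  rw [e1] at h
  have e2 : (fun n : ℕ => 1 / (n : ℝ) ^ (2 * 1) * Real.cos (2 * π * n * Int.fract x))
      = fun n : ℕ => 1 / (n : ℝ) ^ 2 * Real.cos (2 * π * n * x) := by
    funext n
    rw [cos_nat_fract, mul_one]
  rwa [e2] at h

/-- The polynomial identity behind the Fourier series of the triangle function. -/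
theorem B_diff {η : ℝ} (h0 : 0 < η) (h1 : η ≤ 1 / 2) (x : ℝ) :
    (Int.fract x ^ 2 - Int.fract x + 1 / 6)
      - (1 / 2) * (Int.fract (x + η) ^ 2 - Int.fract (x + η) + 1 / 6)
      - (1 / 2) * (Int.fract (x - η) ^ 2 - Int.fract (x - η) + 1 / 6) = η * (T η x - η) := by
  set u := Int.fract x with hu
  have hu0 : 0 ≤ u := Int.fract_nonneg x
  have hu1 : u < 1 := Int.fract_lt_one x
  have hx : x = u + ⌊x⌋ := by rw [hu]; exact (Int.fract_add_floor x).symm
  have ep : Int.fract (x + η) = Int.fract (u + η) := by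
    conv_lhs => rw [hx]
    rw [show u + (⌊x⌋ : ℝ) + η = u + η + ⌊x⌋ by ring, Int.fract_add_intCast]
  have em : Int.fract (x - η) = Int.fract (u - η) := by
    conv_lhs => rw [hx]
    rw [show u + (⌊x⌋ : ℝ) - η = u - η + ⌊x⌋ by ring, Int.fract_add_intCast]
  rw [ep, em]
  unfold T
  rw [← hu]
  rcases lt_or_ge (u + η) 1 with ha | ha
  · have e1 : Int.fract (u + η) = u + η := Int.fract_eq_self.2 ⟨by linarith, ha⟩
    rw [e1]
    rcases lt_or_ge u η with hb | hb
    · have e2 : Int.fract (u - η) = u - η + 1 := by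
        rw [show u - η = (u - η + 1) + ((-1 : ℤ) : ℝ) by push_cast; ring, Int.fract_add_intCast,
          Int.fract_eq_self.2 ⟨by linarith, by linarith⟩]
        push_cast; ring
      rw [e2, min_eq_left (by linarith), max_eq_right]
      · field_simp
        ring
      · rw [sub_nonneg, div_le_one h0]; exact hb.le
    · have e2 : Int.fract (u - η) = u - η := Int.fract_eq_self.2 ⟨by linarith, by linarith⟩
      rw [e2, max_eq_left]
      · ring
      · rw [sub_nonpos, one_le_div h0]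
        exact le_min hb (by linarith)
  · have e1 : Int.fract (u + η) = u + η - 1 := by
      rw [show u + η = (u + η - 1) + ((1 : ℤ) : ℝ) by push_cast; ring, Int.fract_add_intCast,
        Int.fract_eq_self.2 ⟨by linarith, by linarith⟩]
      push_cast; ring
    have e2 : Int.fract (u - η) = u - η := Int.fract_eq_self.2 ⟨by linarith, by linarith⟩
    rw [e1, e2, min_eq_right (by linarith), max_eq_right]
    · field_simp
      ring
    · rw [sub_nonneg, div_le_one h0]; linarith

/-- The Fourier series of the triangle function. -/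
theorem T_hasSum {η : ℝ} (h0 : 0 < η) (h1 : η ≤ 1 / 2) (x : ℝ) :
    HasSum (fun n : ℕ => (1 - Real.cos (2 * π * n * η)) / (π ^ 2 * η * (n : ℝ) ^ 2) *
      Real.cos (2 * π * n * x)) (T η x - η) := by
  have ha := hasSum_B x
  have hp := (hasSum_B (x + η)).mul_left (1 / 2)
  have hm := (hasSum_B (x - η)).mul_left (1 / 2)
  have h := ((ha.sub hp).sub hm).mul_left (1 / (π ^ 2 * η))
  have hπ : (0 : ℝ) < π := Real.pi_pos
  have e1 : 1 / (π ^ 2 * η) * (π ^ 2 * (Int.fract x ^ 2 - Int.fract x + 1 / 6)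
      - (1 / 2) * (π ^ 2 * (Int.fract (x + η) ^ 2 - Int.fract (x + η) + 1 / 6))
      - (1 / 2) * (π ^ 2 * (Int.fract (x - η) ^ 2 - Int.fract (x - η) + 1 / 6))) = T η x - η := by
    have := B_diff h0 h1 x
    rw [show π ^ 2 * (Int.fract x ^ 2 - Int.fract x + 1 / 6)
      - (1 / 2) * (π ^ 2 * (Int.fract (x + η) ^ 2 - Int.fract (x + η) + 1 / 6))
      - (1 / 2) * (π ^ 2 * (Int.fract (x - η) ^ 2 - Int.fract (x - η) + 1 / 6))
      = π ^ 2 * ((Int.fract x ^ 2 - Int.fract x + 1 / 6)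
      - (1 / 2) * (Int.fract (x + η) ^ 2 - Int.fract (x + η) + 1 / 6)
      - (1 / 2) * (Int.fract (x - η) ^ 2 - Int.fract (x - η) + 1 / 6)) by ring, this]
    field_simp
  rw [e1] at h
  have e2 : (fun n : ℕ => 1 / (π ^ 2 * η) * (1 / (n : ℝ) ^ 2 * Real.cos (2 * π * n * x)
      - 1 / 2 * (1 / (n : ℝ) ^ 2 * Real.cos (2 * π * n * (x + η)))
      - 1 / 2 * (1 / (n : ℝ) ^ 2 * Real.cos (2 * π * n * (x - η)))))
      = fun n : ℕ => (1 - Real.cos (2 * π * n * η)) / (π ^ 2 * η * (n : ℝ) ^ 2) *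
      Real.cos (2 * π * n * x) := by
    funext n
    rw [mul_add (2 * π * (n : ℝ)) x η, mul_sub (2 * π * (n : ℝ)) x η, Real.cos_add, Real.cos_sub]
    ring
  rwa [e2] at h

end Pool.Agent.PGap
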