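import Pool.Agent.PGap.Tri
import Pool.Agent.Lib.ANT.Geo

open Finset Real

namespace Pool.Agent.PGap

open Pool.Agent.ANT

theorem one_sub_cos_le {s z : ℝ} (hz : 0 ≤ z) (hs : 0 ≤ s) (hs2 : s ≤ 2) :
    1 - Real.cos (2 * z) ≤ 2 * z ^ s := by
  have e : 1 - Real.cos (2 * z) = 2 * Real.sin z ^ 2 := by
    rw [Real.cos_two_mul, Real.cos_sq']; ring
  rw [e]
  have h1 : Real.sin z ^ 2 ≤ z ^ s := by
    rcases le_total 1 z with h | h
    · calc Real.sin z ^ 2 ≤ 1 := by nlinarith [Real.sin_sq_add_cos_sq z, sq_nonneg (Real.cos z)]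
        _ ≤ z ^ s := Real.one_le_rpow h hs
    · rcases hz.eq_or_lt with rfl | hz0
      · have h5 : (0 : ℝ) ≤ (0 : ℝ) ^ s := Real.rpow_nonneg le_rfl _
        simpa using h5
      · calc Real.sin z ^ 2 ≤ z ^ 2 := by
              have := Real.sin_le hz
              have h2 : 0 ≤ Real.sin z := Real.sin_nonneg_of_nonneg_of_le_pi hz
                (by linarith [Real.pi_gt_three])
              nlinarith
          _ = z ^ (2 : ℝ) := by norm_cast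
          _ ≤ z ^ s := Real.rpow_le_rpow_of_exponent_ge hz0 h hs2
  linarith

theorem abs_sum_cos_le {ι : Type*} (S : Finset ι) (x : ι → ℝ) (n : ℕ) (τ : ℝ) :
    |∑ i ∈ S, Real.cos (2 * π * n * (x i - τ))| ≤ ‖∑ i ∈ S, ee (n * x i)‖ := by
  have e : ∑ i ∈ S, Real.cos (2 * π * n * (x i - τ)) = (ee (-(n * τ)) * ∑ i ∈ S, ee (n * x i)).re := by
    rw [Finset.mul_sum, Complex.re_sum]
    refine Finset.sum_congr rfl fun i _ => ?_
    rw [← ee_add]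
    unfold ee
    rw [mul_comm Complex.I, Complex.exp_ofReal_mul_I_re]
    congr 1
    ring
  rw [e]
  refine (Complex.abs_re_le_norm _).trans ?_
  rw [norm_mul, norm_ee, one_mul]

/-- coefficient bound -/
theorem coef_le {η s : ℝ} (h0 : 0 < η) (hs : 0 ≤ s) (hs2 : s ≤ 2) (n : ℕ) (hn : 1 ≤ n) :
    (1 - Real.cos (2 * π * n * η)) / (π ^ 2 * η * (n : ℝ) ^ 2) ≤ 2 * (η ^ (s - 1) * (n : ℝ) ^ (s - 2)) := by
  have hn0 : (0 : ℝ) < n := by exact_mod_cast hn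
  have hπ : (0 : ℝ) < π := Real.pi_pos
  have h := one_sub_cos_le (z := π * n * η) (by positivity) hs hs2
  rw [show 2 * (π * n * η) = 2 * π * n * η by ring] at h
  rw [div_le_iff₀ (by positivity)]
  refine h.trans ?_
  rw [Real.mul_rpow (by positivity) h0.le, Real.mul_rpow hπ.le hn0.le]
  have e1 : η ^ (s - 1) * η = η ^ s := by
    rw [← Real.rpow_add_one h0.ne']; congr 1; ring
  have e2 : (n : ℝ) ^ (s - 2) * (n : ℝ) ^ 2 = (n : ℝ) ^ s := by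
    rw [← Real.rpow_natCast, ← Real.rpow_add hn0]; congr 1; push_cast; ring
  have e3 : π ^ s ≤ π ^ 2 := by
    rw [← Real.rpow_natCast]
    exact Real.rpow_le_rpow_of_exponent_le (by linarith [Real.pi_gt_three]) (by exact_mod_cast hs2)
  have e4 : 2 * (η ^ (s - 1) * (n : ℝ) ^ (s - 2)) * (π ^ 2 * η * (n : ℝ) ^ 2)
      = 2 * (π ^ 2 * (n : ℝ) ^ s * η ^ s) := by
    rw [← e1, ← e2]; ring
  rw [e4]
  have : 0 ≤ (n : ℝ) ^ s * η ^ s := by positivity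
  nlinarith

/-- Sums of triangle functions and exponential sums. -/
theorem T_sum_err {ι : Type*} (S : Finset ι) (x : ι → ℝ) {η : ℝ} (h0 : 0 < η) (h1 : η ≤ 1 / 2)
    {K₁ K₂ p₁ p₂ s₁ s₂ : ℝ} (hK₁ : 0 ≤ K₁) (hK₂ : 0 ≤ K₂) (hs₁ : 0 ≤ s₁) (hs₁' : s₁ ≤ 2)
    (hs₂ : 0 ≤ s₂) (hs₂' : s₂ ≤ 2) (hc₁ : s₁ + p₁ < 1) (hc₂ : s₂ + p₂ < 1)
    (hS : ∀ n : ℕ, 1 ≤ n → ‖∑ i ∈ S, ee (n * x i)‖ ≤ K₁ * (n : ℝ) ^ p₁ + K₂ * (n : ℝ) ^ p₂) (τ : ℝ) :
    |∑ i ∈ S, T η (x i - τ) - η * S.card| ≤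
      2 * (∑' n : ℕ, (n : ℝ) ^ (s₁ + p₁ - 2)) * K₁ * η ^ (s₁ - 1)
      + 2 * (∑' n : ℕ, (n : ℝ) ^ (s₂ + p₂ - 2)) * K₂ * η ^ (s₂ - 1) := by
  have hsum : HasSum (fun n : ℕ => (1 - Real.cos (2 * π * n * η)) / (π ^ 2 * η * (n : ℝ) ^ 2) *
      ∑ i ∈ S, Real.cos (2 * π * n * (x i - τ))) (∑ i ∈ S, T η (x i - τ) - η * S.card) := by
    have h := hasSum_sum (s := S) (fun i _ => T_hasSum h0 h1 (x i - τ))
    simp only [← Finset.mul_sum] at h
    convert h using 1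
    rw [Finset.sum_sub_distrib, Finset.sum_const, nsmul_eq_mul]
    ring
  have q₁ : Summable (fun n : ℕ => (n : ℝ) ^ (s₁ + p₁ - 2)) := Real.summable_nat_rpow.2 (by linarith)
  have q₂ : Summable (fun n : ℕ => (n : ℝ) ^ (s₂ + p₂ - 2)) := Real.summable_nat_rpow.2 (by linarith)
  have hg := (q₁.hasSum.mul_left (2 * K₁ * η ^ (s₁ - 1))).add (q₂.hasSum.mul_left (2 * K₂ * η ^ (s₂ - 1)))
  have hb := tsum_of_norm_bounded hg (f := fun n : ℕ => (1 - Real.cos (2 * π * n * η)) / (π ^ 2 * η * (n : ℝ) ^ 2) *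
      ∑ i ∈ S, Real.cos (2 * π * n * (x i - τ))) ?_
  · rw [hsum.tsum_eq, Real.norm_eq_abs] at hb
    refine hb.trans (le_of_eq ?_)
    ring
  · intro n
    rw [norm_mul, Real.norm_eq_abs, Real.norm_eq_abs]
    rcases Nat.eq_zero_or_pos n with rfl | hn
    · simp only [CharP.cast_eq_zero, mul_zero, zero_mul, Real.cos_zero, sub_self, zero_div, abs_zero]
      have : 0 ≤ ((0 : ℝ)) ^ (s₁ + p₁ - 2) := Real.rpow_nonneg le_rfl _
      have : 0 ≤ ((0 : ℝ)) ^ (s₂ + p₂ - 2) := Real.rpow_nonneg le_rfl _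
      positivity
    · have hn0 : (0 : ℝ) < n := by exact_mod_cast hn
      have hc0 : 0 ≤ (1 - Real.cos (2 * π * n * η)) / (π ^ 2 * η * (n : ℝ) ^ 2) := by
        have := Real.cos_le_one (2 * π * n * η)
        have : 0 ≤ 1 - Real.cos (2 * π * n * η) := by linarith
        positivity
      rw [abs_of_nonneg hc0]
      have h2 := (abs_sum_cos_le S x n τ).trans (hS n hn)
      have a1 := coef_le h0 hs₁ hs₁' n hn
      have a2 := coef_le h0 hs₂ hs₂' n hn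
      calc _ ≤ (1 - Real.cos (2 * π * n * η)) / (π ^ 2 * η * (n : ℝ) ^ 2) *
            (K₁ * (n : ℝ) ^ p₁ + K₂ * (n : ℝ) ^ p₂) := mul_le_mul_of_nonneg_left h2 hc0
        _ = (1 - Real.cos (2 * π * n * η)) / (π ^ 2 * η * (n : ℝ) ^ 2) * (K₁ * (n : ℝ) ^ p₁)
            + (1 - Real.cos (2 * π * n * η)) / (π ^ 2 * η * (n : ℝ) ^ 2) * (K₂ * (n : ℝ) ^ p₂) := by ring
        _ ≤ 2 * (η ^ (s₁ - 1) * (n : ℝ) ^ (s₁ - 2)) * (K₁ * (n : ℝ) ^ p₁)
            + 2 * (η ^ (s₂ - 1) * (n : ℝ) ^ (s₂ - 2)) * (K₂ * (n : ℝ) ^ p₂) :=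
          add_le_add (mul_le_mul_of_nonneg_right a1 (by positivity))
            (mul_le_mul_of_nonneg_right a2 (by positivity))
        _ = _ := by
          rw [show s₁ + p₁ - 2 = (s₁ - 2) + p₁ by ring, show s₂ + p₂ - 2 = (s₂ - 2) + p₂ by ring,
            Real.rpow_add hn0, Real.rpow_add hn0]
          ring

end Pool.Agent.PGap
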